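import Pool.Agent.Helper43.EA.Clus

/-!
# The smallest boundary around a finite set of bonds
-/

set_option autoImplicit false
set_option linter.unusedSectionVars false

open MeasureTheory Measure Filter Topology
open scoped ENNReal

namespace Pool.Agent.Helper43.EA

variable {A B : Type} [Fintype B] (G : PG A B)

/-- four times the sum of the absolute values of the couplings across the boundary of `W`, for the
best finite set `W` of sites which contains the ends of all bonds of `F` -/
noncomputable def bd (F : Finset (E B)) (J : E B → ℝ) : ℝ :=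
  ⨅ W : {W : Finset (X A) // F ⊆ IB G W}, 4 * ∑ e ∈ BB G W.1, |J e|

lemma bd_ne (F : Finset (E B)) : Nonempty {W : Finset (X A) // F ⊆ IB G W} := by
  classical
  refine ⟨⟨F.image G.src ∪ F.image G.tgt, fun e he => ?_⟩⟩
  rw [mem_IB]
  exact ⟨Finset.mem_union_left _ (Finset.mem_image_of_mem _ he),
    Finset.mem_union_right _ (Finset.mem_image_of_mem _ he)⟩

lemma bd_nonneg (F : Finset (E B)) (J : E B → ℝ) : 0 ≤ bd G F J :=
  Real.iInf_nonneg fun _ => mul_nonneg (by norm_num) (Finset.sum_nonneg fun _ _ => abs_nonneg _)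

lemma bd_le {F : Finset (E B)} {W : Finset (X A)} (h : F ⊆ IB G W) (J : E B → ℝ) :
    bd G F J ≤ 4 * ∑ e ∈ BB G W, |J e| :=
  ciInf_le ⟨0, fun _ hx => by
    obtain ⟨_, rfl⟩ := hx
    exact mul_nonneg (by norm_num) (Finset.sum_nonneg fun _ _ => abs_nonneg _)⟩ (⟨W, h⟩ :
      {W : Finset (X A) // F ⊆ IB G W})

lemma bd_meas [Countable A] (F : Finset (E B)) : Measurable (bd G F) := by
  unfold bd
  refine Measurable.iInf fun W => measurable_const.mul (Finset.measurable_sum _ fun e _ => ?_)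
  exact (measurable_pi_apply e).abs

lemma bd_dep (F : Finset (E B)) : Dep ((F : Set (E B))ᶜ) (bd G F) := by
  intro J J' hJ
  unfold bd
  refine iInf_congr fun W => ?_
  congr 1
  refine Finset.sum_congr rfl fun e he => ?_
  rw [hJ e]
  intro h
  exact Finset.disjoint_left.1 (IB_disj G W.1) (W.2 (Finset.mem_coe.1 h)) he

/-- two families of ground states -/
lemma DD_bd {F : Finset (E B)} {J J' : E B → ℝ} (hF : ∀ e, e ∉ F → J' e = J e)
    {σ σ' θ θ' : X A → ℝ} (h : SimF σ σ') (hg : GS G J σ) (hg' : GS G J' σ')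
    (k : SimF θ θ') (kg : GS G J θ) (kg' : GS G J' θ') :
    |DD G J J' σ σ' - DD G J J' θ θ'| ≤ bd G F J := by
  have := bd_ne G F
  unfold bd
  exact le_ciInf fun W => DD_diff G (fun e he => hF e fun h => he (W.2 h)) h hg hg' k kg kg'

open Classical in
/-- the sites outside of `Λ` which are joined to `Λ` -/
noncomputable def oB (Λ : Finset (X A)) : Finset (X A) :=
  (BB G Λ).image fun e => if G.src e ∈ Λ then G.tgt e else G.src e

lemma card_oB (Λ : Finset (X A)) : (oB G Λ).card ≤ (BB G Λ).card := by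
  classical
  unfold oB
  exact Finset.card_image_le

lemma mem_oB1 {Λ : Finset (X A)} {e : E B} (h : G.src e ∈ Λ) (h' : G.tgt e ∉ Λ) :
    G.tgt e ∈ oB G Λ := by
  classical
  unfold oB
  rw [Finset.mem_image]
  refine ⟨e, ?_, if_pos h⟩
  rw [mem_BB]
  exact fun hc => h' (hc.1 h)

lemma mem_oB2 {Λ : Finset (X A)} {e : E B} (h : G.tgt e ∈ Λ) (h' : G.src e ∉ Λ) :
    G.src e ∈ oB G Λ := by
  classical
  unfold oB
  rw [Finset.mem_image]
  refine ⟨e, ?_, if_neg h'⟩
  rw [mem_BB]
  exact fun hc => h' (hc.2 h)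

variable {K : ℝ}

lemma exists_Lk (S : Set (X A)) {v : X A} {J : E B → ℝ} {k : ℕ} (h : v ∈ Wk G K S k J) :
    ∃ j, v ∈ Lk G K S j J := by
  induction k with
  | zero => exact ⟨0, h⟩
  | succ k ih =>
    by_cases h' : v ∈ Wk G K S k J
    · exact ih h'
    · exact ⟨k + 1, h, h'⟩

lemma card_le_NN (S : Finset (X A)) {J : E B → ℝ} {T : Finset (X A)}
    (hT : ∀ v ∈ T, ∃ k, v ∈ Wk G K (S : Set (X A)) k J) :
    (T.card : ℝ≥0∞) ≤ NN G K S J := by
  have h1 : NN G K S J = ∑' v : X A, ∑' k : ℕ,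
      {J | v ∈ Lk G K (S : Set (X A)) k J}.indicator (1 : (E B → ℝ) → ℝ≥0∞) J := by
    unfold NN aL
    exact ENNReal.tsum_comm
  rw [h1]
  refine le_trans ?_ (ENNReal.sum_le_tsum T)
  have h2 : (T.card : ℝ≥0∞) = ∑ _v ∈ T, 1 := by simp
  rw [h2]
  refine Finset.sum_le_sum fun v hv => ?_
  obtain ⟨k, hk⟩ := hT v hv
  obtain ⟨j, hj⟩ := exists_Lk G _ hk
  refine le_trans ?_ (ENNReal.le_tsum j)
  rw [Set.indicator_of_mem (by exact hj)]
  exact le_rfl

lemma NN_finite (S : Finset (X A)) {J : E B → ℝ} (h : NN G K S J ≠ ⊤) :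
    {v | ∃ k, v ∈ Wk G K (S : Set (X A)) k J}.Finite := by
  by_contra hcon
  have hinf : {v | ∃ k, v ∈ Wk G K (S : Set (X A)) k J}.Infinite := hcon
  obtain ⟨n, hn⟩ := ENNReal.exists_nat_gt h
  obtain ⟨T, hT, hc⟩ := hinf.exists_subset_card_eq n
  have h1 := card_le_NN G (K := K) S (T := T) fun v hv => hT (Finset.mem_coe.2 hv)
  rw [hc] at h1
  exact absurd h1 (not_le.2 hn)

/-- the bound by the size of the clusters -/
lemma bd_clus (hK : 0 ≤ K) {F : Finset (E B)} {Λ : Finset (X A)} (hF : F ⊆ IB G Λ)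
    {J : E B → ℝ} (h : NN G K (oB G Λ) J ≠ ⊤) :
    bd G F J ≤ 8 * Fintype.card B * K * (NN G K (oB G Λ) J).toReal := by
  classical
  set S := oB G Λ with hS
  have hfin := NN_finite G S h
  set C : Finset (X A) := hfin.toFinset with hC
  have hCm : ∀ v, v ∈ C ↔ ∃ k, v ∈ Wk G K (S : Set (X A)) k J := fun v => by
    rw [hC, Set.Finite.mem_toFinset]; rfl
  have hcard : (C.card : ℝ) ≤ (NN G K S J).toReal := by
    have h1 := card_le_NN G (K := K) S (T := C) fun v hv => (hCm v).1 hv
    have h2 := ENNReal.toReal_mono h h1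
    simpa using h2
  set W : Finset (X A) := Λ ∪ C with hW
  have hFW : F ⊆ IB G W := fun e he => by
    have := hF he
    rw [mem_IB] at this ⊢
    exact ⟨Finset.mem_union_left _ this.1, Finset.mem_union_left _ this.2⟩
  -- the boundary bonds
  have hb : ∀ e ∈ BB G W, |J e| ≤ K ∧ (G.src e ∈ C ∨ G.tgt e ∈ C) := by
    intro e he
    rw [mem_BB] at he
    by_cases h1 : G.src e ∈ W
    · have h2 : G.tgt e ∉ W := fun h3 => he ⟨fun _ => h3, fun _ => h1⟩
      have h3 : G.tgt e ∉ Λ := fun h4 => h2 (Finset.mem_union_left _ h4)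
      have h4 : G.tgt e ∉ C := fun h4 => h2 (Finset.mem_union_right _ h4)
      have h5 : G.src e ∈ C := by
        rcases Finset.mem_union.1 h1 with h5 | h5
        · exfalso
          exact h4 ((hCm _).2 ⟨0, mem_oB1 G h5 h3⟩)
        · exact h5
      refine ⟨?_, Or.inl h5⟩
      by_contra hK'
      obtain ⟨k, hk⟩ := (hCm _).1 h5
      refine h4 ((hCm _).2 ⟨k + 1, ?_⟩)
      rw [Wk_succ]
      exact Or.inr ⟨e, not_le.1 hK', Or.inl ⟨hk, rfl⟩⟩
    · have h2 : G.tgt e ∈ W := by
        by_contra h3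
        exact he ⟨fun h4 => absurd h4 h1, fun h4 => absurd h4 h3⟩
      have h3 : G.src e ∉ Λ := fun h4 => h1 (Finset.mem_union_left _ h4)
      have h4 : G.src e ∉ C := fun h4 => h1 (Finset.mem_union_right _ h4)
      have h5 : G.tgt e ∈ C := by
        rcases Finset.mem_union.1 h2 with h5 | h5
        · exfalso
          exact h4 ((hCm _).2 ⟨0, mem_oB2 G h5 h3⟩)
        · exact h5
      refine ⟨?_, Or.inr h5⟩
      by_contra hK'
      obtain ⟨k, hk⟩ := (hCm _).1 h5
      refine h4 ((hCm _).2 ⟨k + 1, ?_⟩)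
      rw [Wk_succ]
      exact Or.inr ⟨e, not_le.1 hK', Or.inr ⟨hk, rfl⟩⟩
  have hbc : (BB G W).card ≤ 2 * (C.card * Fintype.card B) := by
    have h1 : BB G W ⊆ (C ×ˢ (Finset.univ : Finset B)).image
        (fun q => ((q.1.1, q.2) : E B)) ∪ (C ×ˢ (Finset.univ : Finset B)).image
        (fun q => ((q.1.1 - G.h q.2, q.2) : E B)) := by
      intro e he
      rw [Finset.mem_union, Finset.mem_image, Finset.mem_image]
      rcases (hb e he).2 with h2 | h2
      · exact Or.inl ⟨(G.src e, e.2), Finset.mem_product.2 ⟨h2, Finset.mem_univ _⟩, rfl⟩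
      · refine Or.inr ⟨(G.tgt e, e.2), Finset.mem_product.2 ⟨h2, Finset.mem_univ _⟩, ?_⟩
        simp only [PG.tgt, add_sub_cancel_right]
    refine (Finset.card_le_card h1).trans ((Finset.card_union_le _ _).trans ?_)
    rw [two_mul]
    refine add_le_add ?_ ?_
    · refine Finset.card_image_le.trans ?_
      rw [Finset.card_product, Finset.card_univ]
    · refine Finset.card_image_le.trans ?_
      rw [Finset.card_product, Finset.card_univ]
  have hsum : ∑ e ∈ BB G W, |J e| ≤ (BB G W).card * K := by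
    refine (Finset.sum_le_sum fun e he => (hb e he).1).trans (le_of_eq ?_)
    rw [Finset.sum_const, nsmul_eq_mul]
  have hbc' : ((BB G W).card : ℝ) ≤ 2 * (C.card * Fintype.card B) := by exact_mod_cast hbc
  refine (bd_le G hFW J).trans ?_
  have h6 : ((BB G W).card : ℝ) * K ≤ 2 * (C.card * Fintype.card B) * K :=
    mul_le_mul_of_nonneg_right hbc' hK
  have h7 : (C.card : ℝ) * (Fintype.card B * K) ≤
      (NN G K S J).toReal * (Fintype.card B * K) :=
    mul_le_mul_of_nonneg_right hcard (by positivity)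
  nlinarith

/-! ### Boxes -/

section box

variable [Fintype A]

/-- the range of the graph -/
noncomputable def rg : ℕ := Finset.univ.sup fun b : B => Finset.univ.sup fun i : Fin 2 =>
  (G.h b i).natAbs

lemma rg_le (b : B) (i : Fin 2) : -(rg G : ℤ) ≤ G.h b i ∧ G.h b i ≤ rg G := by
  have h1 : (G.h b i).natAbs ≤ rg G :=
    (Finset.le_sup (f := fun i : Fin 2 => (G.h b i).natAbs) (Finset.mem_univ i)).trans
      (Finset.le_sup (f := fun b : B => Finset.univ.sup fun i : Fin 2 =>
        (G.h b i).natAbs) (Finset.mem_univ b))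
  omega

/-- the box around `blk m 0` -/
noncomputable def Lm (m : ℕ) : Finset (X A) :=
  (Fintype.piFinset fun _ : Fin 2 => Finset.Icc (-(rg G : ℤ)) (m + rg G)) ×ˢ Finset.univ

lemma mem_Lm {m : ℕ} {x : X A} :
    x ∈ Lm G m ↔ ∀ i, -(rg G : ℤ) ≤ x.1 i ∧ x.1 i ≤ m + rg G := by
  unfold Lm
  rw [Finset.mem_product, Fintype.mem_piFinset]
  simp only [Finset.mem_Icc, Finset.mem_univ, and_true]

lemma blk_sub_IB (m : ℕ) : (blk m 0 : Finset (E B)) ⊆ IB G (Lm G m) := by
  intro e he
  rw [mem_blk] at he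
  rw [mem_IB, mem_Lm, mem_Lm]
  simp only [Pi.zero_apply, mul_zero, zero_add] at he
  constructor
  · intro i
    have := he i
    simp only [PG.src]
    omega
  · intro i
    have := he i
    have h2 := rg_le G e.2 i
    simp only [PG.tgt, Pi.add_apply]
    omega

lemma card_BB_Lm (m : ℕ) : ((BB G (Lm G m)).card : ℝ) ≤
    Fintype.card B * (4 * rg G * (4 * rg G + 2)) * (m + 1) := by
  classical
  set r := rg G with hr
  set U : Finset (Fin 2 → ℤ) := Fintype.piFinset fun _ : Fin 2 =>
    Finset.Icc (-(2 * r : ℤ)) (m + 2 * r) with hU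
  set U' : Finset (Fin 2 → ℤ) := Fintype.piFinset fun _ : Fin 2 =>
    Finset.Icc (0 : ℤ) m with hU'
  have hsub : U' ⊆ U := by
    intro x hx
    rw [hU', Fintype.mem_piFinset] at hx
    rw [hU, Fintype.mem_piFinset]
    intro i
    have := hx i
    rw [Finset.mem_Icc] at this ⊢
    omega
  have h1 : BB G (Lm G m) ⊆ (U \ U') ×ˢ (Finset.univ : Finset B) := by
    intro e he
    rw [mem_BB, mem_Lm, mem_Lm] at he
    rw [Finset.mem_product, Finset.mem_sdiff, hU, hU', Fintype.mem_piFinset,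
      Fintype.mem_piFinset]
    simp only [Finset.mem_Icc, Finset.mem_univ, and_true]
    simp only [PG.src, PG.tgt, Pi.add_apply, ← hr] at he
    constructor
    · by_contra hcon
      push Not at hcon
      obtain ⟨i, hi⟩ := hcon
      apply he
      have h2 := rg_le G e.2 i
      rw [← hr] at h2
      constructor
      · intro h3
        exfalso
        have := h3 i
        have := hi (by omega)
        omega
      · intro h3
        exfalso
        have := h3 i
        have := hi (by omega)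
        omega
    · intro h3
      apply he
      constructor
      · intro _ i
        have h2 := rg_le G e.2 i
        rw [← hr] at h2
        have := h3 i
        omega
      · intro _ i
        have := h3 i
        omega
  have hcU : U.card = (m + 4 * r + 1) ^ 2 := by
    have : (Finset.Icc (-(2 * r : ℤ)) (m + 2 * r)).card = m + 4 * r + 1 := by
      rw [Int.card_Icc]
      omega
    rw [hU, Fintype.card_piFinset, Finset.prod_const, this, Finset.card_univ, Fintype.card_fin]
  have hcU' : U'.card = (m + 1) ^ 2 := by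
    rw [hU', Fintype.card_piFinset]
    simp
  have h2 := Finset.card_le_card h1
  rw [Finset.card_product, Finset.card_univ] at h2
  have h3 : (((U \ U').card : ℕ) : ℝ) = ((m : ℝ) + 4 * r + 1) ^ 2 - (m + 1) ^ 2 := by
    rw [Finset.card_sdiff_of_subset hsub, Nat.cast_sub (Finset.card_le_card hsub), hcU, hcU']
    push_cast
    ring
  have h4 : ((BB G (Lm G m)).card : ℝ) ≤ ((U \ U').card : ℝ) * Fintype.card B := by
    exact_mod_cast h2
  rw [h3] at h4
  refine h4.trans ?_
  have h5 : ((m : ℝ) + 4 * r + 1) ^ 2 - (m + 1) ^ 2 ≤ (4 * r * (4 * r + 2)) * (m + 1) := by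
    have hm : (0 : ℝ) ≤ m := Nat.cast_nonneg m
    have hr0 : (0 : ℝ) ≤ r := Nat.cast_nonneg r
    nlinarith [mul_nonneg hm hr0, mul_nonneg (mul_nonneg hm hr0) hr0]
  have h6 : (0 : ℝ) ≤ Fintype.card B := Nat.cast_nonneg _
  nlinarith [mul_le_mul_of_nonneg_right h5 h6]

end box

section law

variable (μ : Measure ℝ) [IsProbabilityMeasure μ]

lemma exists_K {p : ℝ} (hp : 0 < p) : ∃ K : ℝ, 0 ≤ K ∧ μ.real {x | K < |x|} ≤ p := by
  have h1 : Tendsto (fun n : ℕ => μ {x : ℝ | (n : ℝ) < |x|}) atTop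
      (𝓝 (μ (⋂ n : ℕ, {x : ℝ | (n : ℝ) < |x|}))) := by
    refine tendsto_measure_iInter_atTop (fun n => ?_) ?_ ⟨0, measure_ne_top _ _⟩
    · exact (measurableSet_lt measurable_const (by fun_prop)).nullMeasurableSet
    · intro m n hmn x hx
      have : (m : ℝ) ≤ n := by exact_mod_cast hmn
      exact lt_of_le_of_lt this hx
  have h2 : (⋂ n : ℕ, {x : ℝ | (n : ℝ) < |x|}) = ∅ := by
    ext x
    simp only [Set.mem_iInter, Set.mem_ofPred_eq, Set.mem_empty_iff_false, iff_false, not_forall,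
      not_lt]
    exact exists_nat_ge |x|
  rw [h2, measure_empty] at h1
  have h3 := h1.eventually (gt_mem_nhds (ENNReal.ofReal_pos.2 hp))
  obtain ⟨n, hn⟩ := h3.exists
  refine ⟨n, Nat.cast_nonneg n, ?_⟩
  unfold Measure.real
  exact ENNReal.toReal_le_of_le_ofReal hp.le hn.le

/-- **The bound is square integrable, and for boxes its mean is of the order of the side.** -/
lemma exists_Bnd [Fintype A] : ∃ C₀ : ℝ, Bnd μ (bd G) C₀ := by
  classical
  set D : ℝ := 2 * Fintype.card B + 2 with hD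
  have hB0 : (0 : ℝ) ≤ Fintype.card B := Nat.cast_nonneg _
  have hD2 : 2 ≤ D := by linarith
  set p : ℝ := 1 / (8 * D ^ 2) with hp
  have hp0 : 0 < p := by positivity
  have hpD : p * (8 * D ^ 2) = 1 := by
    rw [hp]; field_simp
  have hp1 : p ≤ 1 / 2 := by nlinarith
  obtain ⟨K, hK, hKp⟩ := exists_K μ hp0
  have hq1 : ENNReal.ofReal (2 * p) * (2 * Fintype.card B) ≤ 2⁻¹ := by
    have h1 : ENNReal.ofReal (2 * p) * (2 * Fintype.card B : ℝ≥0∞) =
        ENNReal.ofReal (2 * p * (2 * Fintype.card B)) := by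
      rw [ENNReal.ofReal_mul (by positivity : (0 : ℝ) ≤ 2 * p), ENNReal.ofReal_mul (by norm_num)]
      simp
    have h2 : (2⁻¹ : ℝ≥0∞) = ENNReal.ofReal (2⁻¹) := by
      rw [ENNReal.ofReal_inv_of_pos (by norm_num)]; simp
    rw [h1, h2]
    refine ENNReal.ofReal_le_ofReal ?_
    nlinarith
  have hq2 : ((2 * Fintype.card B + 2 : ℕ) : ℝ≥0∞) *
      (ENNReal.ofReal (2 * p) * (2 * Fintype.card B)) ≤ 2⁻¹ := by
    have h1 : ((2 * Fintype.card B + 2 : ℕ) : ℝ≥0∞) *
        (ENNReal.ofReal (2 * p) * (2 * Fintype.card B : ℝ≥0∞)) =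
        ENNReal.ofReal (D * (2 * p * (2 * Fintype.card B))) := by
      rw [ENNReal.ofReal_mul (by positivity : (0 : ℝ) ≤ D),
        ENNReal.ofReal_mul (by positivity : (0 : ℝ) ≤ 2 * p), ENNReal.ofReal_mul (by norm_num)]
      have h3 : ENNReal.ofReal D = ((2 * Fintype.card B + 2 : ℕ) : ℝ≥0∞) := by
        have : D = ((2 * Fintype.card B + 2 : ℕ) : ℝ) := by push_cast; rw [hD]
        rw [this, ENNReal.ofReal_natCast]
      rw [h3]
      simp
    have h2 : (2⁻¹ : ℝ≥0∞) = ENNReal.ofReal (2⁻¹) := by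
      rw [ENNReal.ofReal_inv_of_pos (by norm_num)]; simp
    rw [h1, h2]
    refine ENNReal.ofReal_le_ofReal ?_
    have h4 : 2 * (Fintype.card B : ℝ) ≤ D := by linarith
    have h5 : D * (2 * p * (2 * Fintype.card B)) ≤ D * (2 * p * D) := by
      have : 2 * p * (2 * Fintype.card B) ≤ 2 * p * D :=
        mul_le_mul_of_nonneg_left h4 (by positivity)
      exact mul_le_mul_of_nonneg_left this (by positivity)
    nlinarith
  -- for a fixed finite set
  set c : ℝ := 8 * Fintype.card B * K with hc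
  have hc0 : 0 ≤ c := by positivity
  have hfin : ∀ S : Finset (X A), ∀ᵐ J ∂(infinitePi fun _ : E B => μ), NN G K S J ≠ ⊤ := by
    intro S
    have h1 := NN_int G S μ hK hKp hp1 hq1
    have h2 : ∫⁻ J, NN G K S J ∂(infinitePi fun _ : E B => μ) ≠ ⊤ :=
      ne_top_of_le_ne_top (ENNReal.mul_ne_top (by simp) (ENNReal.natCast_ne_top _)) h1
    filter_upwards [ae_lt_top (NN_meas G K S) h2] with J hJ
    exact hJ.ne
  have hI1 : ∀ S : Finset (X A), Integrable (fun J => (NN G K S J).toReal)
      (infinitePi fun _ : E B => μ) := by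
    intro S
    have h1 := NN_int G S μ hK hKp hp1 hq1
    exact integrable_toReal_of_lintegral_ne_top (NN_meas G K S).aemeasurable
      (ne_top_of_le_ne_top (ENNReal.mul_ne_top (by simp) (ENNReal.natCast_ne_top _)) h1)
  have hI2 : ∀ S : Finset (X A), Integrable (fun J => (NN G K S J).toReal ^ 2)
      (infinitePi fun _ : E B => μ) := by
    intro S
    have h1 := NN_sq G S μ hK hKp hp1 hq2
    have h2 := integrable_toReal_of_lintegral_ne_top
      ((NN_meas G K S).pow_const 2).aemeasurable h1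
    simpa only [ENNReal.toReal_pow] using h2
  have hI3 : ∀ S : Finset (X A), ∫ J, (NN G K S J).toReal ∂(infinitePi fun _ : E B => μ) ≤
      2 * S.card := by
    intro S
    rw [integral_toReal (NN_meas G K S).aemeasurable]
    · have h1 := NN_int G S μ hK hKp hp1 hq1
      have h2 := ENNReal.toReal_mono (ENNReal.mul_ne_top (by simp) (ENNReal.natCast_ne_top _)) h1
      simpa using h2
    · filter_upwards [hfin S] with J hJ
      exact lt_top_iff_ne_top.2 hJ
  have hle : ∀ (F : Finset (E B)) (Λ : Finset (X A)), F ⊆ IB G Λ →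
      ∀ᵐ J ∂(infinitePi fun _ : E B => μ), bd G F J ≤ c * (NN G K (oB G Λ) J).toReal := by
    intro F Λ hF
    filter_upwards [hfin (oB G Λ)] with J hJ
    exact bd_clus G hK hF hJ
  refine ⟨2 * c * (Fintype.card B * (4 * rg G * (4 * rg G + 2))), bd_nonneg G, bd_meas G,
    bd_dep G, ?_, ?_⟩
  · intro F
    obtain ⟨⟨Λ, hΛ⟩⟩ := bd_ne G F
    refine ((hI2 (oB G Λ)).const_mul (c ^ 2)).mono'
      ((bd_meas G F).pow_const 2).aestronglyMeasurable ?_
    filter_upwards [hle F Λ hΛ] with J hJ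
    rw [Real.norm_eq_abs, abs_of_nonneg (sq_nonneg _), ← mul_pow]
    exact pow_le_pow_left₀ (bd_nonneg G F J) hJ 2
  · intro m
    have h1 := hle (blk m 0) (Lm G m) (blk_sub_IB G m)
    have h2 : ∫ J, bd G (blk m 0) J ∂(infinitePi fun _ : E B => μ) ≤
        ∫ J, c * (NN G K (oB G (Lm G m)) J).toReal ∂(infinitePi fun _ : E B => μ) := by
      refine integral_mono_ae ?_ ((hI1 _).const_mul c) h1
      refine ((hI1 (oB G (Lm G m))).const_mul c).mono' (bd_meas G _).aestronglyMeasurable ?_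
      filter_upwards [h1] with J hJ
      rw [Real.norm_eq_abs, abs_of_nonneg (bd_nonneg G _ J)]
      exact hJ
    refine h2.trans ?_
    rw [integral_const_mul]
    have h3 := hI3 (oB G (Lm G m))
    have h4 : (((oB G (Lm G m)).card : ℕ) : ℝ) ≤ ((BB G (Lm G m)).card : ℝ) := by
      exact_mod_cast card_oB G (Lm G m)
    have h5 := card_BB_Lm G m
    have h6 : ∫ J, (NN G K (oB G (Lm G m)) J).toReal ∂(infinitePi fun _ : E B => μ) ≤
        2 * (Fintype.card B * (4 * rg G * (4 * rg G + 2)) * (m + 1)) := by linarith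
    have h7 := mul_le_mul_of_nonneg_left h6 hc0
    linarith

end law

end Pool.Agent.Helper43.EA
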