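import Pool.Agent.Helper43.EA.Perc

/-!
# The size of the clusters
-/

set_option autoImplicit false
set_option linter.unusedSectionVars false

open MeasureTheory Measure Filter Topology
open scoped ENNReal

namespace Pool.Agent.Helper43.EA

variable {A B : Type} [Fintype B] [Countable A] (G : PG A B) (K : ℝ) (S : Finset (X A))

open Classical in
/-- the ball of radius `k` around `S` -/
noncomputable def Bk : ℕ → Finset (X A)
  | 0 => S
  | k + 1 => Bk k ∪ ((Bk k ×ˢ (Finset.univ : Finset B)).image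
      (fun q => ((q.1.1 + G.h q.2, G.t q.2) : X A)) ∪
      (Bk k ×ˢ (Finset.univ : Finset B)).image
      (fun q => ((q.1.1 - G.h q.2, G.s q.2) : X A)))

open Classical in
lemma Bk_succ (k : ℕ) : Bk G S (k + 1) = Bk G S k ∪
    ((Bk G S k ×ˢ (Finset.univ : Finset B)).image
      (fun q => ((q.1.1 + G.h q.2, G.t q.2) : X A)) ∪
      (Bk G S k ×ˢ (Finset.univ : Finset B)).image
      (fun q => ((q.1.1 - G.h q.2, G.s q.2) : X A))) := by
  rw [Bk]

lemma card_Bk (k : ℕ) : (Bk G S k).card ≤ S.card * (2 * Fintype.card B + 2) ^ k := by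
  classical
  induction k with
  | zero => simp [Bk]
  | succ k ih =>
    have h1 : (Bk G S (k + 1)).card ≤ (Bk G S k).card + ((Bk G S k).card * Fintype.card B +
        (Bk G S k).card * Fintype.card B) := by
      rw [Bk_succ]
      refine (Finset.card_union_le _ _).trans (Nat.add_le_add_left ?_ _)
      refine (Finset.card_union_le _ _).trans (Nat.add_le_add ?_ ?_)
      · refine Finset.card_image_le.trans ?_
        rw [Finset.card_product, Finset.card_univ]
      · refine Finset.card_image_le.trans ?_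
        rw [Finset.card_product, Finset.card_univ]
    calc (Bk G S (k + 1)).card ≤ (Bk G S k).card * (2 * Fintype.card B + 2) := by
          refine h1.trans ?_
          nlinarith
      _ ≤ S.card * (2 * Fintype.card B + 2) ^ k * (2 * Fintype.card B + 2) :=
          Nat.mul_le_mul_right _ ih
      _ = S.card * (2 * Fintype.card B + 2) ^ (k + 1) := by rw [pow_succ]; ring

lemma Wk_sub_Bk (k : ℕ) (J : E B → ℝ) : Wk G K (S : Set (X A)) k J ⊆ (Bk G S k : Set (X A)) := by
  classical
  induction k with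
  | zero => exact le_rfl
  | succ k ih =>
    rw [Wk_succ]
    intro v hv
    rw [Finset.mem_coe, Bk_succ]
    rw [Finset.mem_union, Finset.mem_union, Finset.mem_image, Finset.mem_image]
    rcases hv with hv | ⟨e, -, h⟩
    · exact Or.inl (Finset.mem_coe.1 (ih hv))
    · right
      rcases h with ⟨h, rfl⟩ | ⟨h, rfl⟩
      · exact Or.inl ⟨(G.src e, e.2), Finset.mem_product.2
          ⟨Finset.mem_coe.1 (ih h), Finset.mem_univ _⟩, rfl⟩
      · refine Or.inr ⟨(G.tgt e, e.2), Finset.mem_product.2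
          ⟨Finset.mem_coe.1 (ih h), Finset.mem_univ _⟩, ?_⟩
        simp only [PG.tgt, PG.src, add_sub_cancel_right]

/-- the size of the layer -/
noncomputable def aL (k : ℕ) (J : E B → ℝ) : ℝ≥0∞ :=
  ∑' v : X A, {J | v ∈ Lk G K (S : Set (X A)) k J}.indicator 1 J

lemma aL_meas (k : ℕ) : Measurable (aL G K S k) := by
  unfold aL
  exact Measurable.tsum fun v => measurable_one.indicator (Lk_measurable v k)

lemma Lk_sub_Wk (k : ℕ) (J : E B → ℝ) : Lk G K (S : Set (X A)) k J ⊆ Wk G K S k J := by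
  cases k with
  | zero => exact le_rfl
  | succ k => exact Set.sdiff_subset

lemma aL_le (k : ℕ) (J : E B → ℝ) :
    aL G K S k J ≤ ((S.card * (2 * Fintype.card B + 2) ^ k : ℕ) : ℝ≥0∞) := by
  classical
  have h1 : aL G K S k J ≤ ∑' v : X A, (Bk G S k : Set (X A)).indicator 1 v := by
    unfold aL
    refine ENNReal.tsum_le_tsum fun v => ?_
    by_cases h : v ∈ Lk G K (S : Set (X A)) k J
    · have h2 : v ∈ (Bk G S k : Set (X A)) := Wk_sub_Bk G K S k J (Lk_sub_Wk G K S k J h)
      rw [Set.indicator_of_mem h2]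
      exact Set.indicator_le_self' (fun _ _ => zero_le) _
    · rw [Set.indicator_of_notMem (by exact h)]
      exact zero_le
  refine h1.trans ?_
  have h3 : ∑' v : X A, (Bk G S k : Set (X A)).indicator (1 : X A → ℝ≥0∞) v =
      ((Bk G S k).card : ℝ≥0∞) := by
    rw [tsum_eq_sum (s := Bk G S k) fun v hv => Set.indicator_of_notMem
      (fun h => hv (Finset.mem_coe.1 h)) _]
    rw [Finset.sum_congr rfl fun v hv => Set.indicator_of_mem (Finset.mem_coe.2 hv) _]
    simp
  rw [h3]
  exact_mod_cast card_Bk G S k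

/-- the number of all sites reached -/
noncomputable def NN (J : E B → ℝ) : ℝ≥0∞ := ∑' k, aL G K S k J

lemma NN_meas : Measurable (NN G K S) := by
  unfold NN
  exact Measurable.tsum fun k => aL_meas G K S k

section law

variable (μ : Measure ℝ) [IsProbabilityMeasure μ]

lemma lint_aL (k : ℕ) : ∫⁻ J, aL G K S k J ∂(infinitePi fun _ : E B => μ) =
    mL μ G K (S : Set (X A)) k := by
  unfold aL mL
  rw [lintegral_tsum fun v => (measurable_one.indicator (Lk_measurable v k)).aemeasurable]
  refine tsum_congr fun v => ?_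
  exact lintegral_indicator_one (Lk_measurable v k)

variable {K}

lemma mL_le (hK : 0 ≤ K) {p : ℝ} (hp : μ.real {x | K < |x|} ≤ p) (hp1 : p ≤ 1 / 2) (k : ℕ) :
    mL μ G K (S : Set (X A)) k ≤
      (ENNReal.ofReal (2 * p) * (2 * Fintype.card B)) ^ k * S.card := by
  classical
  induction k with
  | zero =>
    rw [pow_zero, one_mul]
    unfold mL
    have h1 : ∀ v : X A, (infinitePi fun _ : E B => μ)
        {J | v ∈ Lk G K (S : Set (X A)) 0 J} = (S : Set (X A)).indicator 1 v := by
      intro v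
      by_cases h : v ∈ S
      · have h2 : {J : E B → ℝ | v ∈ Lk G K (S : Set (X A)) 0 J} = Set.univ := by
          ext J; simp [Lk, h]
        rw [h2, measure_univ, Set.indicator_of_mem (Finset.mem_coe.2 h)]; rfl
      · have h2 : {J : E B → ℝ | v ∈ Lk G K (S : Set (X A)) 0 J} = ∅ := by
          ext J; simp [Lk, h]
        rw [h2, measure_empty, Set.indicator_of_notMem (fun h' => h (Finset.mem_coe.1 h'))]
    rw [tsum_congr h1, tsum_eq_sum (s := S) fun v hv => Set.indicator_of_notMem
      (fun h => hv (Finset.mem_coe.1 h)) _]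
    rw [Finset.sum_congr rfl fun v hv => Set.indicator_of_mem (Finset.mem_coe.2 hv) _]
    simp
  | succ k ih =>
    refine (mL_step μ hK hp hp1 k).trans ?_
    refine (mul_le_mul_right ih _).trans (le_of_eq ?_)
    rw [pow_succ]; ring

/-- the first moment -/
lemma NN_int (hK : 0 ≤ K) {p : ℝ} (hp : μ.real {x | K < |x|} ≤ p) (hp1 : p ≤ 1 / 2)
    (hp2 : ENNReal.ofReal (2 * p) * (2 * Fintype.card B) ≤ 2⁻¹) :
    ∫⁻ J, NN G K S J ∂(infinitePi fun _ : E B => μ) ≤ 2 * S.card := by
  unfold NN
  rw [lintegral_tsum fun k => (aL_meas G K S k).aemeasurable]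
  have h1 : ∀ k, ∫⁻ J, aL G K S k J ∂(infinitePi fun _ : E B => μ) ≤
      2⁻¹ ^ k * (S.card : ℝ≥0∞) := by
    intro k
    rw [lint_aL]
    refine (mL_le G S μ hK hp hp1 k).trans ?_
    gcongr
  refine (ENNReal.tsum_le_tsum h1).trans ?_
  rw [ENNReal.tsum_mul_right, ENNReal.tsum_geometric]
  simp

/-- the second moment -/
lemma NN_sq (hK : 0 ≤ K) {p : ℝ} (hp : μ.real {x | K < |x|} ≤ p) (hp1 : p ≤ 1 / 2)
    (hp2 : ((2 * Fintype.card B + 2 : ℕ) : ℝ≥0∞) *
      (ENNReal.ofReal (2 * p) * (2 * Fintype.card B)) ≤ 2⁻¹) :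
    ∫⁻ J, NN G K S J ^ 2 ∂(infinitePi fun _ : E B => μ) ≠ ⊤ := by
  classical
  set D : ℕ := 2 * Fintype.card B + 2 with hD
  have hD2 : 2 ≤ D := by omega
  -- the partial sums
  have hgeo : ∀ k : ℕ, ∑ j ∈ Finset.range (k + 1), D ^ j ≤ D ^ (k + 1) := by
    intro k
    induction k with
    | zero => simp; omega
    | succ k ih =>
      rw [Finset.sum_range_succ]
      calc _ ≤ D ^ (k + 1) + D ^ (k + 1) := Nat.add_le_add_right ih _
        _ = D ^ (k + 1) * 2 := by ring
        _ ≤ D ^ (k + 1) * D := Nat.mul_le_mul_left _ hD2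
        _ = D ^ (k + 1 + 1) := by rw [pow_succ D (k + 1)]
  have hpart : ∀ (J : E B → ℝ) (k : ℕ), ∑ j ∈ Finset.range (k + 1), aL G K S j J ≤
      ((S.card * D ^ (k + 1) : ℕ) : ℝ≥0∞) := by
    intro J k
    refine (Finset.sum_le_sum fun j _ => aL_le G K S j J).trans ?_
    have : ∑ j ∈ Finset.range (k + 1), S.card * D ^ j ≤ S.card * D ^ (k + 1) := by
      rw [← Finset.mul_sum]
      exact Nat.mul_le_mul_left _ (hgeo k)
    exact_mod_cast this
  have hsq : ∀ J : E B → ℝ, NN G K S J ^ 2 ≤
      2 * ∑' k, aL G K S k J * ((S.card * D ^ (k + 1) : ℕ) : ℝ≥0∞) := by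
    intro J
    have e1 : NN G K S J ^ 2 = ∑' k, ∑' j, aL G K S k J * aL G K S j J := by
      rw [sq]
      unfold NN
      rw [← ENNReal.tsum_mul_right]
      refine tsum_congr fun k => ?_
      rw [ENNReal.tsum_mul_left]
    have e2 : ∀ k j, aL G K S k J * aL G K S j J ≤
        (if j ≤ k then aL G K S k J * aL G K S j J else 0) +
        (if k ≤ j then aL G K S k J * aL G K S j J else 0) := by
      intro k j
      rcases le_total j k with h | h
      · rw [if_pos h]; exact le_self_add
      · rw [if_pos h]; exact le_add_self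
    have e3 : ∑' k, ∑' j, (if j ≤ k then aL G K S k J * aL G K S j J else 0) ≤
        ∑' k, aL G K S k J * ((S.card * D ^ (k + 1) : ℕ) : ℝ≥0∞) := by
      refine ENNReal.tsum_le_tsum fun k => ?_
      rw [tsum_eq_sum (s := Finset.range (k + 1)) fun j hj => if_neg fun h =>
        hj (Finset.mem_range.2 (by omega))]
      refine (Finset.sum_le_sum (g := fun j => aL G K S k J * aL G K S j J)
        fun j _ => ?_).trans ?_
      · split_ifs
        · exact le_rfl
        · exact zero_le
      · rw [← Finset.mul_sum]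
        exact mul_le_mul_right (hpart J k) _
    have e4 : ∑' k, ∑' j, (if k ≤ j then aL G K S k J * aL G K S j J else 0) ≤
        ∑' k, aL G K S k J * ((S.card * D ^ (k + 1) : ℕ) : ℝ≥0∞) := by
      rw [ENNReal.tsum_comm]
      refine le_trans (le_of_eq ?_) e3
      refine tsum_congr fun k => tsum_congr fun j => ?_
      split_ifs
      · exact mul_comm _ _
      · rfl
    rw [e1, two_mul]
    refine le_trans (ENNReal.tsum_le_tsum fun k => ENNReal.tsum_le_tsum fun j => e2 k j) ?_
    have e5 : ∑' k, ∑' j, ((if j ≤ k then aL G K S k J * aL G K S j J else 0) +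
        (if k ≤ j then aL G K S k J * aL G K S j J else 0)) =
        ∑' k, ∑' j, (if j ≤ k then aL G K S k J * aL G K S j J else 0) +
        ∑' k, ∑' j, (if k ≤ j then aL G K S k J * aL G K S j J else 0) := by
      rw [← ENNReal.tsum_add]
      exact tsum_congr fun k => ENNReal.tsum_add
    rw [e5]
    exact add_le_add e3 e4
  have hlint : ∫⁻ J, NN G K S J ^ 2 ∂(infinitePi fun _ : E B => μ) ≤
      2 * ∑' k, mL μ G K (S : Set (X A)) k * ((S.card * D ^ (k + 1) : ℕ) : ℝ≥0∞) := by
    refine (lintegral_mono hsq).trans ?_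
    rw [lintegral_const_mul _ (Measurable.tsum fun k => (aL_meas G K S k).mul_const _),
      lintegral_tsum fun k => ((aL_meas G K S k).mul_const _).aemeasurable]
    refine mul_le_mul_right (ENNReal.tsum_le_tsum fun k => ?_) _
    rw [lintegral_mul_const _ (aL_meas G K S k), lint_aL]
  refine ne_top_of_le_ne_top ?_ hlint
  set q := ENNReal.ofReal (2 * p) * (2 * Fintype.card B : ℝ≥0∞) with hq
  have h2 : ∀ k, mL μ G K (S : Set (X A)) k * ((S.card * D ^ (k + 1) : ℕ) : ℝ≥0∞) ≤
      2⁻¹ ^ k * ((S.card * S.card * D : ℕ) : ℝ≥0∞) := by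
    intro k
    refine (mul_le_mul_left (mL_le G S μ hK hp hp1 k) _).trans ?_
    calc (ENNReal.ofReal (2 * p) * (2 * Fintype.card B : ℝ≥0∞)) ^ k * S.card *
          ((S.card * D ^ (k + 1) : ℕ) : ℝ≥0∞)
        = ((D : ℝ≥0∞) * q) ^ k * ((S.card * S.card * D : ℕ) : ℝ≥0∞) := by
          rw [← hq]
          push_cast
          rw [mul_pow, pow_succ]
          ring
      _ ≤ 2⁻¹ ^ k * ((S.card * S.card * D : ℕ) : ℝ≥0∞) := by gcongr
  refine ENNReal.mul_ne_top (by simp) (ne_top_of_le_ne_top ?_ (ENNReal.tsum_le_tsum h2))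
  rw [ENNReal.tsum_mul_right, ENNReal.tsum_geometric]
  refine ENNReal.mul_ne_top ?_ (ENNReal.natCast_ne_top _)
  simp

end law

end Pool.Agent.Helper43.EA
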