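import Pool.Agent.Helper43.EA.Tilt

/-!
# Decoupling of a function of all coordinates from a product of small perturbations
-/

set_option autoImplicit false

open MeasureTheory Measure Filter Topology

namespace Pool.Agent.Helper43.EA

variable {ι : Type*} {Ω : Type*} [MeasurableSpace Ω] (μ : Measure ℝ) [IsProbabilityMeasure μ]
  (Q : Measure Ω) [IsProbabilityMeasure Q]

/-- the law of `((ω, z), (J, y))` -/
noncomputable def MM (ι : Type*) : Measure ((Ω × (ι → ℝ)) × ((ι → ℝ) × (ι → ℝ))) :=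
  (Q.prod (infinitePi fun _ : ι => μ)).prod
    ((infinitePi fun _ : ι => μ).prod (infinitePi fun _ : ι => μ))

instance : IsProbabilityMeasure (MM μ Q ι) := by unfold MM; infer_instance

/-- exchange of coordinates of `J` and `y` -/
noncomputable def aS (b : Set ι) : ((Ω × (ι → ℝ)) × ((ι → ℝ) × (ι → ℝ))) ≃ᵐ
    ((Ω × (ι → ℝ)) × ((ι → ℝ) × (ι → ℝ))) :=
  MeasurableEquiv.prodCongr (MeasurableEquiv.refl _) (swE b)

lemma aS_apply (b : Set ι) (p : (Ω × (ι → ℝ)) × ((ι → ℝ) × (ι → ℝ))) :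
    aS b p = (p.1, sw b p.2) := rfl

lemma aS_law (b : Set ι) : MeasurePreserving (aS b (Ω := Ω)) (MM μ Q ι) (MM μ Q ι) :=
  (MeasurePreserving.id _).prod (sw_law μ b)

lemma aS_int (b : Set ι) (f : (Ω × (ι → ℝ)) × ((ι → ℝ) × (ι → ℝ)) → ℝ) :
    ∫ p, f (p.1, sw b p.2) ∂(MM μ Q ι) = ∫ p, f p ∂(MM μ Q ι) :=
  (aS_law μ Q b).integral_comp' (f := aS b) f

/-- exchange of `z` and `y` -/
def rZ : ((Ω × (ι → ℝ)) × ((ι → ℝ) × (ι → ℝ))) ≃ᵐ ((Ω × (ι → ℝ)) × ((ι → ℝ) × (ι → ℝ))) where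
  toFun := fun p => ((p.1.1, p.2.2), (p.2.1, p.1.2))
  invFun := fun p => ((p.1.1, p.2.2), (p.2.1, p.1.2))
  left_inv := fun _ => rfl
  right_inv := fun _ => rfl
  measurable_toFun := by simp only [Equiv.coe_fn_mk]; fun_prop
  measurable_invFun := by simp only [Equiv.coe_fn_symm_mk]; fun_prop

lemma rZ_law : MeasurePreserving (rZ (ι := ι) (Ω := Ω)) (MM μ Q ι) (MM μ Q ι) := by
  set P := infinitePi fun _ : ι => μ with hP
  -- ((ω, z), (J, y)) -> (ω, (z, (J, y)))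
  have h1 : MeasurePreserving (MeasurableEquiv.prodAssoc (α := Ω) (β := ι → ℝ)
      (γ := (ι → ℝ) × (ι → ℝ))) (MM μ Q ι) (Q.prod (P.prod (P.prod P))) :=
    measurePreserving_prodAssoc Q P (P.prod P)
  -- (z, (J, y)) -> ((J, y), z) -> (J, (y, z)) -> (J, (z, y)) -> ((J, z), y) -> (y, (J, z))
  have s1 : MeasurePreserving (Prod.swap : (ι → ℝ) × ((ι → ℝ) × (ι → ℝ)) → _)
      (P.prod (P.prod P)) ((P.prod P).prod P) := measurePreserving_swap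
  have s2 : MeasurePreserving (MeasurableEquiv.prodAssoc (α := ι → ℝ) (β := ι → ℝ)
      (γ := ι → ℝ)) ((P.prod P).prod P) (P.prod (P.prod P)) := measurePreserving_prodAssoc P P P
  have s3 : MeasurePreserving (Prod.map id Prod.swap :
      (ι → ℝ) × ((ι → ℝ) × (ι → ℝ)) → (ι → ℝ) × ((ι → ℝ) × (ι → ℝ)))
      (P.prod (P.prod P)) (P.prod (P.prod P)) :=
    (MeasurePreserving.id P).prod measurePreserving_swap
  have s4 := s2.symm
  have s5 : MeasurePreserving (Prod.swap : ((ι → ℝ) × (ι → ℝ)) × (ι → ℝ) → _)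
      ((P.prod P).prod P) (P.prod (P.prod P)) := measurePreserving_swap
  have s6 := s5.comp (s4.comp (s3.comp (s2.comp s1)))
  have h2 := (MeasurePreserving.id Q).prod s6
  have h3 := h1.symm.comp (h2.comp h1)
  exact h3

lemma rZ_int (f : (Ω × (ι → ℝ)) × ((ι → ℝ) × (ι → ℝ)) → ℝ) :
    ∫ p, f ((p.1.1, p.2.2), (p.2.1, p.1.2)) ∂(MM μ Q ι) = ∫ p, f p ∂(MM μ Q ι) :=
  (rZ_law μ Q).integral_comp' (f := rZ) f

lemma MM_congr {f g : (Ω × (ι → ℝ)) × ((ι → ℝ) × (ι → ℝ)) → ℝ} (hf : Integrable f (MM μ Q ι))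
    (hg : Integrable g (MM μ Q ι))
    (h : ∀ q : Ω × (ι → ℝ), ∫ r, f (q, r) ∂((infinitePi fun _ : ι => μ).prod
      (infinitePi fun _ : ι => μ)) = ∫ r, g (q, r) ∂((infinitePi fun _ : ι => μ).prod
      (infinitePi fun _ : ι => μ))) :
    ∫ p, f p ∂(MM μ Q ι) = ∫ p, g p ∂(MM μ Q ι) := by
  unfold MM at hf hg ⊢
  rw [integral_prod _ hf, integral_prod _ hg]
  exact integral_congr_ae (Eventually.of_forall fun q => h q)

lemma MM_bdd {f : (Ω × (ι → ℝ)) × ((ι → ℝ) × (ι → ℝ)) → ℝ} (hf : Measurable f) {C : ℝ}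
    (hC : ∀ x, |f x| ≤ C) : Integrable f (MM μ Q ι) :=
  Integrable.of_bound hf.aestronglyMeasurable C
    (Eventually.of_forall fun x => by rw [Real.norm_eq_abs]; exact hC x)

section dec

variable {κ : Type*}

set_option linter.unusedSectionVars false

/-- the perturbations: they are local, small and centered -/
structure Pert (b : κ → Set ι) (G : κ → Ω → (ι → ℝ) → ℝ) : Prop where
  disj : Pairwise fun j k => Disjoint (b j) (b k)
  dep : ∀ k ω, Dep (b k) (G k ω)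
  meas : ∀ k, Measurable fun q : Ω × (ι → ℝ) => G k q.1 q.2
  le : ∀ k ω J, |G k ω J| ≤ 1
  mean : ∀ k ω, ∫ x, G k ω x ∂(infinitePi fun _ : ι => μ) = 0

variable {μ}
variable {b : κ → Set ι} {G : κ → Ω → (ι → ℝ) → ℝ}

lemma Pert.meas' (hG : Pert μ b G) (ω : Ω) (k : κ) : Measurable (G k ω) :=
  (hG.meas k).comp (measurable_const.prodMk measurable_id)

/-- the product, as a function of `ω` and `J` -/
def ZZ (h : ℝ) (G : κ → Ω → (ι → ℝ) → ℝ) (K : Finset κ) (ω : Ω) (J : ι → ℝ) : ℝ :=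
  Zf h (fun k => G k ω) K J

lemma ZZ_meas (hG : Pert μ b G) (h : ℝ) (K : Finset κ) :
    Measurable fun q : Ω × (ι → ℝ) => ZZ h G K q.1 q.2 := by
  unfold ZZ Zf
  exact Finset.measurable_prod _ fun k _ =>
    (measurable_const.add (measurable_const.mul (hG.meas k)))

variable (μ)

lemma decouple (hG : Pert μ b G) {h : ℝ} (h0 : 0 ≤ h) [DecidableEq κ]
    {Θ : Ω → (ι → ℝ) → (ι → ℝ) → ℝ}
    (hΘ : Measurable fun q : Ω × ((ι → ℝ) × (ι → ℝ)) => Θ q.1 q.2.1 q.2.2) {R : ℝ}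
    (hR : ∀ ω J z, |Θ ω J z| ≤ R) {I : Set ι} {K K1 K2 : Finset κ} (hK : K = K1 ∪ K2)
    (hd : Disjoint K1 K2) (h1 : ∀ k ∈ K1, b k ⊆ I) (h2 : ∀ k ∈ K2, Disjoint (b k) I)
    {t : ℝ} (ht : 0 < t) :
    |∫ p, ZZ h G K p.1.1 p.2.1 * Θ p.1.1 p.2.1 p.1.2 ∂(MM μ Q ι) -
      ∫ p, Θ p.1.1 p.2.1 p.1.2 ∂(MM μ Q ι)| ≤
      t / 2 * (1 + h ^ 2) ^ K.card +
        R / t * ∫ p, |Θ p.1.1 p.2.1 p.1.2 - Θ p.1.1 (patch Iᶜ p.2.1 p.2.2) p.1.2| ∂(MM μ Q ι) +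
        ((1 + h) ^ K1.card - 1) * R := by
  have hZm : ∀ K : Finset κ, Measurable fun p : (Ω × (ι → ℝ)) × ((ι → ℝ) × (ι → ℝ)) =>
      ZZ h G K p.1.1 p.2.1 := fun K => (ZZ_meas hG h K).comp
        (f := fun p : (Ω × (ι → ℝ)) × ((ι → ℝ) × (ι → ℝ)) => (p.1.1, p.2.1)) (by fun_prop)
  have hΘm : Measurable fun p : (Ω × (ι → ℝ)) × ((ι → ℝ) × (ι → ℝ)) =>
      Θ p.1.1 p.2.1 p.1.2 := hΘ.comp (g := fun q : Ω × ((ι → ℝ) × (ι → ℝ)) => Θ q.1 q.2.1 q.2.2)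
        (f := fun p : (Ω × (ι → ℝ)) × ((ι → ℝ) × (ι → ℝ)) => (p.1.1, (p.2.1, p.1.2)))
        (by fun_prop)
  have hρm : Measurable fun p : (Ω × (ι → ℝ)) × ((ι → ℝ) × (ι → ℝ)) =>
      patch Iᶜ p.2.1 p.2.2 := (measurable_patch Iᶜ).comp measurable_snd
  have hΘρm : Measurable fun p : (Ω × (ι → ℝ)) × ((ι → ℝ) × (ι → ℝ)) =>
      Θ p.1.1 (patch Iᶜ p.2.1 p.2.2) p.1.2 :=
    hΘ.comp (g := fun q : Ω × ((ι → ℝ) × (ι → ℝ)) => Θ q.1 q.2.1 q.2.2)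
        (f := fun p : (Ω × (ι → ℝ)) × ((ι → ℝ) × (ι → ℝ)) =>
          (p.1.1, (patch Iᶜ p.2.1 p.2.2, p.1.2)))
        ((measurable_fst.comp measurable_fst).prodMk
          (hρm.prodMk (measurable_snd.comp measurable_fst)))
  have hR0 : 0 ≤ R := by
    obtain ⟨ω⟩ : Nonempty Ω := by
      by_contra hne
      rw [not_nonempty_iff] at hne
      have := measure_univ (μ := Q)
      rw [Set.univ_eq_empty_iff.2 hne, measure_empty] at this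
      exact zero_ne_one this
    exact (abs_nonneg _).trans (hR ω (fun _ => 0) (fun _ => 0))
  have hZb : ∀ (K : Finset κ) (p : (Ω × (ι → ℝ)) × ((ι → ℝ) × (ι → ℝ))),
      |ZZ h G K p.1.1 p.2.1| ≤ (1 + h) ^ K.card := fun K p =>
    Zf_le h0 (fun k J => hG.le k _ J) _
  have hP0 : ∀ n : ℕ, (0 : ℝ) ≤ (1 + h) ^ n := fun n => by positivity
  have hI1 : Integrable (fun p : (Ω × (ι → ℝ)) × ((ι → ℝ) × (ι → ℝ)) =>
      ZZ h G K p.1.1 p.2.1 * Θ p.1.1 p.2.1 p.1.2) (MM μ Q ι) :=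
    MM_bdd μ Q ((hZm K).mul hΘm) (C := (1 + h) ^ K.card * R) fun p => by
      rw [abs_mul]; exact mul_le_mul (hZb K p) (hR _ _ _) (abs_nonneg _) (hP0 _)
  have hI2 : Integrable (fun p : (Ω × (ι → ℝ)) × ((ι → ℝ) × (ι → ℝ)) =>
      ZZ h G K p.1.1 p.2.1 * Θ p.1.1 (patch Iᶜ p.2.1 p.2.2) p.1.2) (MM μ Q ι) :=
    MM_bdd μ Q ((hZm K).mul hΘρm) (C := (1 + h) ^ K.card * R) fun p => by
      rw [abs_mul]; exact mul_le_mul (hZb K p) (hR _ _ _) (abs_nonneg _) (hP0 _)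
  have hI3 : Integrable (fun p : (Ω × (ι → ℝ)) × ((ι → ℝ) × (ι → ℝ)) =>
      ZZ h G K1 p.1.1 p.2.1 * Θ p.1.1 p.2.1 p.1.2) (MM μ Q ι) :=
    MM_bdd μ Q ((hZm K1).mul hΘm) (C := (1 + h) ^ K1.card * R) fun p => by
      rw [abs_mul]; exact mul_le_mul (hZb K1 p) (hR _ _ _) (abs_nonneg _) (hP0 _)
  have hI4 : Integrable (fun p : (Ω × (ι → ℝ)) × ((ι → ℝ) × (ι → ℝ)) =>
      Θ p.1.1 p.2.1 p.1.2) (MM μ Q ι) := MM_bdd μ Q hΘm fun p => hR _ _ _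
  have hI5 : Integrable (fun p : (Ω × (ι → ℝ)) × ((ι → ℝ) × (ι → ℝ)) =>
      |Θ p.1.1 p.2.1 p.1.2 - Θ p.1.1 (patch Iᶜ p.2.1 p.2.2) p.1.2|) (MM μ Q ι) :=
    MM_bdd μ Q ((hΘm.sub hΘρm).abs) (C := R + R) fun p => by
      rw [abs_abs]; exact (abs_sub _ _).trans (add_le_add (hR _ _ _) (hR _ _ _))
  have hI6 : Integrable (fun p : (Ω × (ι → ℝ)) × ((ι → ℝ) × (ι → ℝ)) =>
      ZZ h G K p.1.1 p.2.1 ^ 2) (MM μ Q ι) :=
    MM_bdd μ Q ((hZm K).pow_const 2) (C := ((1 + h) ^ K.card) ^ 2) fun p => by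
      rw [abs_of_nonneg (sq_nonneg _), ← sq_abs]
      exact pow_le_pow_left₀ (abs_nonneg _) (hZb K p) 2
  -- step 1
  have e1 : |∫ p, ZZ h G K p.1.1 p.2.1 * Θ p.1.1 p.2.1 p.1.2 ∂(MM μ Q ι) -
      ∫ p, ZZ h G K p.1.1 p.2.1 * Θ p.1.1 (patch Iᶜ p.2.1 p.2.2) p.1.2 ∂(MM μ Q ι)| ≤
      t / 2 * (1 + h ^ 2) ^ K.card +
        R / t * ∫ p, |Θ p.1.1 p.2.1 p.1.2 - Θ p.1.1 (patch Iᶜ p.2.1 p.2.2) p.1.2|
          ∂(MM μ Q ι) := by
    rw [← integral_sub hI1 hI2]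
    refine (abs_integral_le_integral_abs).trans ?_
    have h3 : ∫ p, |ZZ h G K p.1.1 p.2.1 * Θ p.1.1 p.2.1 p.1.2 -
        ZZ h G K p.1.1 p.2.1 * Θ p.1.1 (patch Iᶜ p.2.1 p.2.2) p.1.2| ∂(MM μ Q ι) ≤
        ∫ p, (t / 2 * ZZ h G K p.1.1 p.2.1 ^ 2 + R / t *
          |Θ p.1.1 p.2.1 p.1.2 - Θ p.1.1 (patch Iᶜ p.2.1 p.2.2) p.1.2|) ∂(MM μ Q ι) := by
      refine integral_mono (hI1.sub hI2).abs ((hI6.const_mul (t / 2)).add (hI5.const_mul (R / t)))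
        fun p => ?_
      simp only
      rw [← mul_sub, abs_mul]
      set a := |ZZ h G K p.1.1 p.2.1| with ha
      set d := |Θ p.1.1 p.2.1 p.1.2 - Θ p.1.1 (patch Iᶜ p.2.1 p.2.2) p.1.2| with hdd
      have hd2 : d ≤ 2 * R := by
        refine (abs_sub _ _).trans ?_
        have := hR p.1.1 p.2.1 p.1.2
        have := hR p.1.1 (patch Iᶜ p.2.1 p.2.2) p.1.2
        linarith
      have hd0 : 0 ≤ d := abs_nonneg _
      have ha2 : ZZ h G K p.1.1 p.2.1 ^ 2 = a ^ 2 := (sq_abs _).symm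
      rw [ha2]
      have h4 : a * d ≤ t / 2 * a ^ 2 + 1 / (2 * t) * d ^ 2 := by
        have h5 : 0 ≤ (t * a - d) ^ 2 := sq_nonneg _
        have h6 : t / 2 * a ^ 2 + 1 / (2 * t) * d ^ 2 - a * d = (t * a - d) ^ 2 / (2 * t) := by
          field_simp
          ring
        have h7 : 0 ≤ (t * a - d) ^ 2 / (2 * t) := by positivity
        linarith
      have h8 : 1 / (2 * t) * d ^ 2 ≤ R / t * d := by
        have h9 : R / t * d - 1 / (2 * t) * d ^ 2 = d * (2 * R - d) / (2 * t) := by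
          field_simp
        have h10 : 0 ≤ d * (2 * R - d) / (2 * t) :=
          div_nonneg (mul_nonneg hd0 (by linarith)) (by linarith)
        linarith
      linarith
    refine h3.trans ?_
    rw [integral_add (hI6.const_mul _) (hI5.const_mul _), integral_const_mul, integral_const_mul]
    have h11 : ∫ p, ZZ h G K p.1.1 p.2.1 ^ 2 ∂(MM μ Q ι) ≤ (1 + h ^ 2) ^ K.card := by
      have h12 : ∫ p, ZZ h G K p.1.1 p.2.1 ^ 2 ∂(MM μ Q ι) ≤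
          ∫ _p, (1 + h ^ 2) ^ K.card ∂(MM μ Q ι) := by
        unfold MM at hI6 ⊢
        rw [integral_prod _ hI6, integral_prod _ (integrable_const _)]
        refine integral_mono hI6.integral_prod_left (integrable_const _).integral_prod_left
          fun q => ?_
        simp only
        have h13 := int_fst μ (fun J => ZZ h G K q.1 J ^ 2)
        rw [h13, integral_const, probReal_univ, one_smul]
        exact Zf_sq μ hG.disj (fun k => hG.dep k _) (fun k => hG.meas' _ k)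
          (fun k J => hG.le k _ J) h0 (fun k => hG.mean k _) K
      refine h12.trans ?_
      rw [integral_const, probReal_univ, one_smul]
    have h14 : 0 ≤ t / 2 := by linarith
    nlinarith
  -- step 2
  have e2 : ∫ p, ZZ h G K p.1.1 p.2.1 * Θ p.1.1 (patch Iᶜ p.2.1 p.2.2) p.1.2 ∂(MM μ Q ι) =
      ∫ p, ZZ h G K1 p.1.1 p.2.1 * Θ p.1.1 p.2.1 p.1.2 ∂(MM μ Q ι) := by
    refine MM_congr μ Q hI2 hI3 fun q => ?_
    simp only
    have h3 : ∀ r : (ι → ℝ) × (ι → ℝ), ZZ h G K q.1 r.1 * Θ q.1 (patch Iᶜ r.1 r.2) q.2 =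
        (fun s : (ι → ℝ) × (ι → ℝ) => ZZ h G K1 q.1 s.1 * Θ q.1 s.1 q.2 * ZZ h G K2 q.1 s.2)
          (sw Iᶜ r) := by
      intro r
      show _ = ZZ h G K1 q.1 (patch Iᶜ r.1 r.2) * Θ q.1 (patch Iᶜ r.1 r.2) q.2 *
        ZZ h G K2 q.1 (patch Iᶜ r.2 r.1)
      have h4 : Dep I (ZZ h G K1 q.1) := Zf_dep (fun k => hG.dep k _) h1
      have h5 : Dep Iᶜ (ZZ h G K2 q.1) := Zf_dep (fun k => hG.dep k _) fun k hk =>
        Set.subset_compl_iff_disjoint_right.2 (h2 k hk)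
      rw [h4.patch_out disjoint_compl_right, h5.patch_in le_rfl]
      have h6 : ZZ h G K q.1 r.1 = ZZ h G K1 q.1 r.1 * ZZ h G K2 q.1 r.1 := by
        rw [hK]; exact Zf_union hd _
      rw [h6]; ring
    simp only [h3]
    rw [sw_int μ Iᶜ (fun s : (ι → ℝ) × (ι → ℝ) =>
      ZZ h G K1 q.1 s.1 * Θ q.1 s.1 q.2 * ZZ h G K2 q.1 s.2),
      integral_prod_mul (fun J => ZZ h G K1 q.1 J * Θ q.1 J q.2) (ZZ h G K2 q.1),
      int_fst μ (fun J => ZZ h G K1 q.1 J * Θ q.1 J q.2)]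
    have h7 := Zf_mean μ hG.disj (fun k => hG.dep k q.1) (fun k => hG.meas' _ k)
      (fun k J => hG.le k _ J) h0 (fun k => hG.mean k _) K2
    have h8 : ∫ x, ZZ h G K2 q.1 x ∂(infinitePi fun _ : ι => μ) = 1 := h7
    rw [h8, mul_one]
  -- step 3
  have e3 : |∫ p, ZZ h G K1 p.1.1 p.2.1 * Θ p.1.1 p.2.1 p.1.2 ∂(MM μ Q ι) -
      ∫ p, Θ p.1.1 p.2.1 p.1.2 ∂(MM μ Q ι)| ≤ ((1 + h) ^ K1.card - 1) * R := by
    rw [← integral_sub hI3 hI4]
    refine (abs_integral_le_integral_abs).trans ?_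
    have h3 : ∫ p, |ZZ h G K1 p.1.1 p.2.1 * Θ p.1.1 p.2.1 p.1.2 - Θ p.1.1 p.2.1 p.1.2|
        ∂(MM μ Q ι) ≤ ∫ _p, ((1 + h) ^ K1.card - 1) * R ∂(MM μ Q ι) := by
      refine integral_mono (hI3.sub hI4).abs (integrable_const _) fun p => ?_
      simp only
      have h4 : ZZ h G K1 p.1.1 p.2.1 * Θ p.1.1 p.2.1 p.1.2 - Θ p.1.1 p.2.1 p.1.2 =
          (ZZ h G K1 p.1.1 p.2.1 - 1) * Θ p.1.1 p.2.1 p.1.2 := by ring
      rw [h4, abs_mul]
      exact mul_le_mul (Zf_sub_one h0 (fun k J => hG.le k _ J) _) (hR _ _ _) (abs_nonneg _)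
        ((abs_nonneg _).trans (Zf_sub_one h0 (fun k J => hG.le k p.1.1 J) p.2.1))
    refine h3.trans ?_
    rw [integral_const, probReal_univ, one_smul]
  rw [e2] at e1
  have := abs_sub_le (∫ p, ZZ h G K p.1.1 p.2.1 * Θ p.1.1 p.2.1 p.1.2 ∂(MM μ Q ι))
    (∫ p, ZZ h G K1 p.1.1 p.2.1 * Θ p.1.1 p.2.1 p.1.2 ∂(MM μ Q ι))
    (∫ p, Θ p.1.1 p.2.1 p.1.2 ∂(MM μ Q ι))
  linarith

end dec

end Pool.Agent.Helper43.EA
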