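import Pool.Agent.Helper43.EA.Lat

/-!
# Periodic graphs; energies of ground states when finitely many couplings are changed
-/

set_option autoImplicit false

namespace Pool.Agent.Helper43.EA

/-- the sites; `A` is the set of the orbits of sites -/
abbrev X (A : Type) : Type := (Fin 2 → ℤ) × A

/-- A periodic graph: the bond `(v, b)` joins the sites `(v, s b)` and `(v + h b, t b)`. -/
structure PG (A B : Type) where
  /-- the orbit of the first end -/
  s : B → A
  /-- the orbit of the second end -/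
  t : B → A
  /-- the displacement -/
  h : B → (Fin 2 → ℤ)

variable {A B : Type}

/-- the first end -/
def PG.src (G : PG A B) (e : E B) : X A := (e.1, G.s e.2)

/-- the second end -/
def PG.tgt (G : PG A B) (e : E B) : X A := (e.1 + G.h e.2, G.t e.2)

/-- the product of the spins at the ends of a bond -/
def bp (G : PG A B) (σ : X A → ℝ) (e : E B) : ℝ := σ (G.src e) * σ (G.tgt e)

/-- spin configurations -/
def Spin (σ : X A → ℝ) : Prop := ∀ x, σ x = 1 ∨ σ x = -1

/-- `ρ` and `σ` differ at finitely many sites only -/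
def Sim (σ ρ : X A → ℝ) : Prop := {x | ρ x ≠ σ x}.Finite

/-- the energy of `ρ` minus the energy of `σ` -/
noncomputable def WD (G : PG A B) (J : E B → ℝ) (σ ρ : X A → ℝ) : ℝ :=
  ∑ᶠ e, J e * (bp G σ e - bp G ρ e)

/-- ground states -/
def GS (G : PG A B) (J : E B → ℝ) (σ : X A → ℝ) : Prop :=
  Spin σ ∧ ∀ ρ, Spin ρ → Sim σ ρ → 0 ≤ WD G J σ ρ

lemma bp_neg (G : PG A B) (σ : X A → ℝ) (e : E B) : bp G (-σ) e = bp G σ e := by
  unfold bp; simp

lemma Spin.neg {σ : X A → ℝ} (h : Spin σ) : Spin (-σ) := by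
  intro x
  rcases h x with h | h
  · right; simp [h]
  · left; simp [h]

lemma Spin.bp_abs {σ : X A → ℝ} (h : Spin σ) (G : PG A B) (e : E B) : |bp G σ e| = 1 := by
  unfold bp
  rcases h (G.src e) with h1 | h1 <;> rcases h (G.tgt e) with h2 | h2 <;>
    rw [h1, h2] <;> norm_num

lemma Spin.bp_cases {σ : X A → ℝ} (h : Spin σ) (G : PG A B) (e : E B) :
    bp G σ e = 1 ∨ bp G σ e = -1 := by
  unfold bp
  rcases h (G.src e) with h1 | h1 <;> rcases h (G.tgt e) with h2 | h2 <;>
    rw [h1, h2] <;> norm_num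

lemma Sim.symm {σ ρ : X A → ℝ} (h : Sim σ ρ) : Sim ρ σ :=
  Set.Finite.subset h fun _ hx he => hx he.symm

lemma Sim.trans {σ ρ θ : X A → ℝ} (h : Sim σ ρ) (h' : Sim ρ θ) : Sim σ θ := by
  refine (Set.Finite.union h h').subset fun x hx => ?_
  by_cases h1 : ρ x = σ x
  · right
    intro h2
    exact hx (h2.trans h1)
  · left; exact h1

lemma WD_neg_left (G : PG A B) (J : E B → ℝ) (σ ρ : X A → ℝ) : WD G J (-σ) ρ = WD G J σ ρ := by
  unfold WD; simp only [bp_neg]

lemma WD_neg_right (G : PG A B) (J : E B → ℝ) (σ ρ : X A → ℝ) : WD G J σ (-ρ) = WD G J σ ρ := by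
  unfold WD; simp only [bp_neg]

lemma GS.neg {G : PG A B} {J : E B → ℝ} {σ : X A → ℝ} (h : GS G J σ) : GS G J (-σ) := by
  refine ⟨h.1.neg, fun ρ hρ hs => ?_⟩
  rw [WD_neg_left, ← WD_neg_right]
  refine h.2 _ hρ.neg (Set.Finite.subset hs fun x hx => ?_)
  intro h1
  apply hx
  simp only [Pi.neg_apply] at h1 ⊢
  rw [h1, neg_neg]

variable [Finite B]

/-- the bonds which meet a finite set of sites -/
lemma inc_finite (G : PG A B) {S : Set (X A)} (h : S.Finite) :
    {e : E B | G.src e ∈ S ∨ G.tgt e ∈ S}.Finite := by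
  have h2 : {e : E B | G.src e ∈ S ∨ G.tgt e ∈ S} ⊆
      ((fun q : X A × B => ((q.1.1, q.2) : E B)) '' (S ×ˢ Set.univ)) ∪
      ((fun q : X A × B => ((q.1.1 - G.h q.2, q.2) : E B)) '' (S ×ˢ Set.univ)) := by
    intro e he
    rcases he with he | he
    · left
      exact ⟨(G.src e, e.2), ⟨he, trivial⟩, rfl⟩
    · right
      refine ⟨(G.tgt e, e.2), ⟨he, trivial⟩, ?_⟩
      simp only [PG.tgt, add_sub_cancel_right]
  exact (((h.prod Set.finite_univ).image _).union ((h.prod Set.finite_univ).image _)).subset h2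

lemma supp_bp (G : PG A B) {σ ρ : X A → ℝ} (h : {x | ρ x ≠ σ x}.Finite) :
    {e : E B | bp G σ e ≠ bp G ρ e}.Finite := by
  refine (inc_finite G h).subset fun e he => ?_
  by_contra hcon
  simp only [Set.mem_ofPred_eq, not_or, not_not] at hcon
  apply he
  unfold bp
  rw [hcon.1, hcon.2]

lemma supp_WD (G : PG A B) {J : E B → ℝ} {σ ρ : X A → ℝ} (h : {x | ρ x ≠ σ x}.Finite) :
    (Function.support fun e => J e * (bp G σ e - bp G ρ e)).Finite := by
  refine (supp_bp G h).subset fun e he => ?_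
  intro h1
  apply he
  simp only [h1, sub_self, mul_zero]

lemma WD_trans (G : PG A B) {J : E B → ℝ} {σ ρ θ : X A → ℝ} (h : Sim σ ρ) (h' : Sim ρ θ) :
    WD G J σ θ = WD G J σ ρ + WD G J ρ θ := by
  unfold WD
  rw [← finsum_add_distrib (supp_WD G h) (supp_WD G h')]
  refine finsum_congr fun e => ?_
  ring

/-- the energy at `J'` minus the energy at `J` -/
noncomputable def DD (G : PG A B) (J J' : E B → ℝ) (σ σ' : X A → ℝ) : ℝ :=
  ∑ᶠ e, (J e * bp G σ e - J' e * bp G σ' e)

lemma supp_DD (G : PG A B) {F : Finset (E B)} {J J' : E B → ℝ} {σ σ' : X A → ℝ}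
    (hF : ∀ e, e ∉ F → J' e = J e) (h : {x | σ' x ≠ σ x}.Finite) :
    (Function.support fun e => J e * bp G σ e - J' e * bp G σ' e).Finite := by
  refine ((supp_bp G h).union F.finite_toSet).subset fun e he => ?_
  by_contra hcon
  rw [Set.mem_union, not_or] at hcon
  apply he
  have h1 : bp G σ e = bp G σ' e := by
    by_contra h2; exact hcon.1 h2
  have h2 : e ∉ F := fun h3 => hcon.2 (Finset.mem_coe.2 h3)
  simp only
  rw [h1, hF e h2, sub_self]

omit [Finite B] in
lemma finsum_F {F : Finset (E B)} {f : E B → ℝ} (hf : ∀ e, e ∉ F → f e = 0) :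
    ∑ᶠ e, f e = ∑ e ∈ F, f e :=
  finsum_eq_sum_of_support_subset _ fun e he => by
    by_contra h
    exact he (hf e fun h' => h (Finset.mem_coe.2 h'))

lemma DD_eq1 (G : PG A B) {F : Finset (E B)} {J J' : E B → ℝ} {σ σ' : X A → ℝ}
    (hF : ∀ e, e ∉ F → J' e = J e) (h : {x | σ' x ≠ σ x}.Finite) :
    DD G J J' σ σ' = ∑ e ∈ F, (J e - J' e) * bp G σ e - WD G J' σ' σ := by
  have h' : {x | σ x ≠ σ' x}.Finite := h.subset fun x hx he => hx he.symm
  have h1 : ∑ᶠ e, ((J e - J' e) * bp G σ e) = ∑ e ∈ F, (J e - J' e) * bp G σ e :=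
    finsum_F fun e he => by rw [hF e he, sub_self, zero_mul]
  rw [← h1]
  unfold DD WD
  rw [← finsum_sub_distrib]
  · refine finsum_congr fun e => ?_
    ring
  · refine F.finite_toSet.subset fun e he => ?_
    by_contra h2
    apply he
    simp only
    rw [hF e fun h3 => h2 (Finset.mem_coe.2 h3), sub_self, zero_mul]
  · exact supp_WD G h'

lemma DD_eq2 (G : PG A B) {F : Finset (E B)} {J J' : E B → ℝ} {σ σ' : X A → ℝ}
    (hF : ∀ e, e ∉ F → J' e = J e) (h : {x | σ' x ≠ σ x}.Finite) :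
    DD G J J' σ σ' = ∑ e ∈ F, (J e - J' e) * bp G σ' e + WD G J σ σ' := by
  have h1 : ∑ᶠ e, ((J e - J' e) * bp G σ' e) = ∑ e ∈ F, (J e - J' e) * bp G σ' e :=
    finsum_F fun e he => by rw [hF e he, sub_self, zero_mul]
  rw [← h1]
  unfold DD WD
  rw [← finsum_add_distrib]
  · refine finsum_congr fun e => ?_
    ring
  · refine F.finite_toSet.subset fun e he => ?_
    by_contra h2
    apply he
    simp only
    rw [hF e fun h3 => h2 (Finset.mem_coe.2 h3), sub_self, zero_mul]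
  · exact supp_WD G h

omit [Finite B] in
lemma DD_neg (G : PG A B) (J J' : E B → ℝ) (σ σ' : X A → ℝ) :
    DD G J J' σ (-σ') = DD G J J' σ σ' := by
  unfold DD; simp only [bp_neg]

/-- the relation up to a global flip -/
def SimF (σ ρ : X A → ℝ) : Prop := Sim σ ρ ∨ Sim σ (-ρ)

lemma SimF.symm {σ ρ : X A → ℝ} (h : SimF σ ρ) : SimF ρ σ := by
  rcases h with h | h
  · exact Or.inl h.symm
  · right
    refine Set.Finite.subset h fun x hx he => hx ?_
    simp only [Pi.neg_apply] at he ⊢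
    rw [← he, neg_neg]

/-- `D ≤ ∑_F (J σ - J' σ)` -/
lemma DD_upper (G : PG A B) {F : Finset (E B)} {J J' : E B → ℝ} {σ σ' : X A → ℝ}
    (hF : ∀ e, e ∉ F → J' e = J e) (hσ : Spin σ) (h : SimF σ σ') (hg : GS G J' σ') :
    DD G J J' σ σ' ≤ ∑ e ∈ F, (J e - J' e) * bp G σ e := by
  have key : ∀ θ : X A → ℝ, Sim σ θ → GS G J' θ → DD G J J' σ θ ≤
      ∑ e ∈ F, (J e - J' e) * bp G σ e := by
    intro θ hs hθ
    rw [DD_eq1 G hF hs]
    have := hθ.2 σ hσ hs.symm
    linarith
  rcases h with h | h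
  · exact key _ h hg
  · rw [← DD_neg]; exact key _ h hg.neg

lemma DD_lower (G : PG A B) {F : Finset (E B)} {J J' : E B → ℝ} {σ σ' : X A → ℝ}
    (hF : ∀ e, e ∉ F → J' e = J e) (hσ' : Spin σ') (h : SimF σ σ') (hg : GS G J σ) :
    ∑ e ∈ F, (J e - J' e) * bp G σ' e ≤ DD G J J' σ σ' := by
  have key : ∀ θ : X A → ℝ, Spin θ → Sim σ θ →
      ∑ e ∈ F, (J e - J' e) * bp G θ e ≤ DD G J J' σ θ := by
    intro θ hθ hs
    rw [DD_eq2 G hF hs]
    have := hg.2 θ hθ hs
    linarith
  rcases h with h | h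
  · exact key _ hσ' h
  · have := key _ hσ'.neg h
    simp only [bp_neg] at this
    rw [← DD_neg]; exact this

/-! ### Hybrids -/

lemma IB_finite (G : PG A B) (W : Finset (X A)) :
    {e : E B | G.src e ∈ W ∧ G.tgt e ∈ W}.Finite :=
  (inc_finite G W.finite_toSet).subset fun _ he => Or.inl he.1

lemma BB_finite (G : PG A B) (W : Finset (X A)) :
    {e : E B | ¬ (G.src e ∈ W ↔ G.tgt e ∈ W)}.Finite := by
  refine (inc_finite G W.finite_toSet).subset fun e he => ?_
  by_cases h1 : G.src e ∈ W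
  · exact Or.inl h1
  · refine Or.inr ?_
    by_contra h2
    exact he ⟨fun h => absurd h h1, fun h => absurd h h2⟩

/-- the bonds inside `W` -/
noncomputable def IB (G : PG A B) (W : Finset (X A)) : Finset (E B) := (IB_finite G W).toFinset

/-- the bonds with exactly one end in `W` -/
noncomputable def BB (G : PG A B) (W : Finset (X A)) : Finset (E B) := (BB_finite G W).toFinset

lemma mem_IB {G : PG A B} {W : Finset (X A)} {e : E B} :
    e ∈ IB G W ↔ G.src e ∈ W ∧ G.tgt e ∈ W := by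
  unfold IB
  rw [Set.Finite.mem_toFinset]
  rfl

lemma mem_BB {G : PG A B} {W : Finset (X A)} {e : E B} :
    e ∈ BB G W ↔ ¬ (G.src e ∈ W ↔ G.tgt e ∈ W) := by
  unfold BB
  rw [Set.Finite.mem_toFinset]
  rfl

lemma IB_disj (G : PG A B) (W : Finset (X A)) : Disjoint (IB G W) (BB G W) := by
  rw [Finset.disjoint_left]
  intro e h1 h2
  rw [mem_IB] at h1
  rw [mem_BB] at h2
  exact h2 ⟨fun _ => h1.2, fun _ => h1.1⟩

open Classical in
/-- `s` in `W` and `σ` outside -/
noncomputable def hyb (W : Finset (X A)) (s σ : X A → ℝ) : X A → ℝ :=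
  fun x => if x ∈ W then s x else σ x

omit [Finite B] in
lemma hyb_spin {W : Finset (X A)} {s σ : X A → ℝ} (hs : Spin s) (hσ : Spin σ) :
    Spin (hyb W s σ) := by
  intro x
  unfold hyb
  split_ifs
  · exact hs x
  · exact hσ x

omit [Finite B] in
lemma hyb_sim (W : Finset (X A)) (s σ : X A → ℝ) : Sim σ (hyb W s σ) := by
  refine W.finite_toSet.subset fun x hx => ?_
  by_contra h
  apply hx
  unfold hyb
  rw [if_neg fun h' => h (Finset.mem_coe.2 h')]

lemma WD_hyb (G : PG A B) {W : Finset (X A)} {J J' : E B → ℝ}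
    (hF : ∀ e, e ∉ IB G W → J' e = J e) {s σ : X A → ℝ} (hs : Spin s) (hσ : Spin σ) :
    ∑ e ∈ IB G W, J' e * (bp G s e - bp G σ e) - 2 * ∑ e ∈ BB G W, |J e| ≤
      WD G J' (hyb W s σ) σ := by
  classical
  unfold WD
  rw [finsum_F (F := IB G W ∪ BB G W) fun e he => ?_, Finset.sum_union (IB_disj G W)]
  · have h1 : ∑ e ∈ IB G W, J' e * (bp G (hyb W s σ) e - bp G σ e) =
        ∑ e ∈ IB G W, J' e * (bp G s e - bp G σ e) := by
      refine Finset.sum_congr rfl fun e he => ?_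
      rw [mem_IB] at he
      have : bp G (hyb W s σ) e = bp G s e := by
        unfold bp hyb
        rw [if_pos he.1, if_pos he.2]
      rw [this]
    have h2 : -(2 * ∑ e ∈ BB G W, |J e|) ≤
        ∑ e ∈ BB G W, J' e * (bp G (hyb W s σ) e - bp G σ e) := by
      rw [Finset.mul_sum, ← Finset.sum_neg_distrib]
      refine Finset.sum_le_sum fun e he => ?_
      have h3 : J' e = J e := hF e fun h4 => Finset.disjoint_left.1 (IB_disj G W) h4 he
      rw [h3]
      have h4 := (hyb_spin (W := W) hs hσ).bp_abs G e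
      have h5 := hσ.bp_abs G e
      have h6 : |J e * (bp G (hyb W s σ) e - bp G σ e)| ≤ 2 * |J e| := by
        rw [abs_mul]
        have := abs_sub (bp G (hyb W s σ) e) (bp G σ e)
        nlinarith [abs_nonneg (J e)]
      have := (abs_le.1 h6).1
      linarith
    linarith
  · rw [Finset.mem_union, not_or, mem_IB, mem_BB, not_not] at he
    have h2 : ¬ G.src e ∈ W := fun h => he.1 ⟨h, he.2.1 h⟩
    have h3 : ¬ G.tgt e ∈ W := fun h => h2 (he.2.2 h)
    have : bp G (hyb W s σ) e = bp G σ e := by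
      unfold bp hyb
      rw [if_neg h2, if_neg h3]
    rw [this, sub_self, mul_zero]

lemma claimA (G : PG A B) {W : Finset (X A)} {J J' : E B → ℝ}
    (hF : ∀ e, e ∉ IB G W → J' e = J e) {s σ σ' : X A → ℝ} (hs : Spin s) (hσ : Spin σ)
    (h : SimF σ σ') (hg : GS G J' σ') :
    DD G J J' σ σ' ≤ ∑ e ∈ IB G W, (J e * bp G σ e - J' e * bp G s e) +
      2 * ∑ e ∈ BB G W, |J e| := by
  have key : ∀ θ : X A → ℝ, Sim σ θ → GS G J' θ → DD G J J' σ θ ≤
      ∑ e ∈ IB G W, (J e * bp G σ e - J' e * bp G s e) + 2 * ∑ e ∈ BB G W, |J e| := by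
    intro θ hsim hθ
    have h0 := hyb_sim W s σ
    rw [DD_eq1 G hF hsim, WD_trans G (hsim.symm.trans h0) h0.symm]
    have h1 := hθ.2 _ (hyb_spin (W := W) hs hσ) (hsim.symm.trans h0)
    have h2 := WD_hyb G hF hs hσ
    have h3 : ∑ e ∈ IB G W, (J e * bp G σ e - J' e * bp G s e) =
        ∑ e ∈ IB G W, (J e - J' e) * bp G σ e -
          ∑ e ∈ IB G W, J' e * (bp G s e - bp G σ e) := by
      rw [← Finset.sum_sub_distrib]
      refine Finset.sum_congr rfl fun e _ => ?_
      ring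
    rw [h3]
    linarith
  rcases h with h | h
  · exact key _ h hg
  · rw [← DD_neg]; exact key _ h hg.neg

lemma claimB (G : PG A B) {W : Finset (X A)} {J J' : E B → ℝ}
    (hF : ∀ e, e ∉ IB G W → J' e = J e) {s σ σ' : X A → ℝ} (hs : Spin s) (hσ' : Spin σ')
    (h : SimF σ σ') (hg : GS G J σ) :
    ∑ e ∈ IB G W, (J e * bp G s e - J' e * bp G σ' e) - 2 * ∑ e ∈ BB G W, |J e| ≤
      DD G J J' σ σ' := by
  have key : ∀ θ : X A → ℝ, Spin θ → Sim σ θ →
      ∑ e ∈ IB G W, (J e * bp G s e - J' e * bp G θ e) - 2 * ∑ e ∈ BB G W, |J e| ≤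
        DD G J J' σ θ := by
    intro θ hθ hsim
    have h0 := hyb_sim W s θ
    rw [DD_eq2 G hF hsim, WD_trans G (hsim.trans h0) h0.symm]
    have h1 := hg.2 _ (hyb_spin (W := W) hs hθ) (hsim.trans h0)
    have h2 := WD_hyb G (J := J) (J' := J) (fun _ _ => rfl) (W := W) hs hθ
    have h3 : ∑ e ∈ IB G W, (J e * bp G s e - J' e * bp G θ e) =
        ∑ e ∈ IB G W, (J e - J' e) * bp G θ e +
          ∑ e ∈ IB G W, J e * (bp G s e - bp G θ e) := by
      rw [← Finset.sum_add_distrib]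
      refine Finset.sum_congr rfl fun e _ => ?_
      ring
    rw [h3]
    linarith
  rcases h with h | h
  · exact key _ hσ' h
  · have := key _ hσ'.neg h
    simp only [bp_neg] at this
    rw [← DD_neg]; exact this

/-- two families of ground states -/
lemma DD_diff (G : PG A B) {W : Finset (X A)} {J J' : E B → ℝ}
    (hF : ∀ e, e ∉ IB G W → J' e = J e) {σ σ' θ θ' : X A → ℝ}
    (h : SimF σ σ') (hg : GS G J σ) (hg' : GS G J' σ')
    (k : SimF θ θ') (kg : GS G J θ) (kg' : GS G J' θ') :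
    |DD G J J' σ σ' - DD G J J' θ θ'| ≤ 4 * ∑ e ∈ BB G W, |J e| := by
  have a1 := claimA G hF kg'.1 hg.1 h hg'
  have a2 := claimB G hF hg.1 kg'.1 k kg
  have b1 := claimA G hF hg'.1 kg.1 k kg'
  have b2 := claimB G hF kg.1 hg'.1 h hg
  rw [abs_le]
  constructor <;> linarith

end Pool.Agent.Helper43.EA
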