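import Pool.Agent.Helper43.EA.Lat

/-!
# The main estimate
-/

set_option autoImplicit false

open MeasureTheory Measure Filter Topology

namespace Pool.Agent.Helper43.EA

set_option linter.unusedSectionVars false

section

variable {B : Type} [Fintype B] {Ω : Type*} [MeasurableSpace Ω] (μ : Measure ℝ)
  [IsProbabilityMeasure μ] (Q : Measure Ω) [IsProbabilityMeasure Q]

/-- a tilt of the couplings in the block `blk N 0` -/
structure Til (N : ℕ) (g : Ω → (E B → ℝ) → ℝ) : Prop where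
  dep : ∀ ω, Dep (blk N 0 : Finset (E B)) (g ω)
  meas : Measurable fun q : Ω × (E B → ℝ) => g q.1 q.2
  le : ∀ ω J, |g ω J| ≤ 1
  mean : ∀ ω, ∫ x, g ω x ∂(infinitePi fun _ : E B => μ) = 0

variable {τ : V → Ω → Ω} {δ : Finset (E B) → Ω → (E B → ℝ) → (E B → ℝ) → ℝ}
  {β : Finset (E B) → (E B → ℝ) → ℝ} {C₀ : ℝ}

/-- the translates of the tilt -/
def tG (τ : V → Ω → Ω) (N : ℕ) (g : Ω → (E B → ℝ) → ℝ) (k : V) (ω : Ω) (J : E B → ℝ) : ℝ :=
  g (τ (nk N k) ω) (sh (nk N k) J)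

variable {μ Q}

lemma Til.pert {N : ℕ} (hN : 1 ≤ N) {g : Ω → (E B → ℝ) → ℝ} (hg : Til μ N g)
    (hτ : ∀ a, MeasurePreserving (τ a) Q Q) :
    Pert μ (fun k => ((blk N k : Finset (E B)) : Set (E B))) (tG τ N g) := by
  refine ⟨blk_disj hN, ?_, ?_, fun k ω J => hg.le _ _, ?_⟩
  · intro k ω J J' hJ
    refine hg.dep _ _ _ fun e he => ?_
    rw [sh_apply, sh_apply]
    exact hJ _ ((blk_shift N k e).1 he)
  · intro k
    exact hg.meas.comp (((hτ _).measurable.comp measurable_fst).prodMk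
      ((measurable_sh _).comp measurable_snd))
  · intro k ω
    have h1 := (sh_law (B := B) μ (nk N k)).map_eq
    have h2 : Measurable (g (τ (nk N k) ω)) :=
      hg.meas.comp (measurable_const.prodMk measurable_id)
    have h3 : ∫ x, g (τ (nk N k) ω) x ∂(infinitePi fun _ : E B => μ) =
        ∫ x, g (τ (nk N k) ω) (sh (nk N k) x) ∂(infinitePi fun _ : E B => μ) := by
      conv_lhs => rw [← h1]
      rw [integral_map (measurable_sh _).aemeasurable h2.aestronglyMeasurable]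
    show ∫ x, g (τ (nk N k) ω) (sh (nk N k) x) ∂(infinitePi fun _ : E B => μ) = 0
    rw [← h3]
    exact hg.mean _

variable (μ Q)

lemma Bnd.sqMM (hβ : Bnd μ β C₀) (F : Finset (E B)) :
    Integrable (fun p : (Ω × (E B → ℝ)) × ((E B → ℝ) × (E B → ℝ)) => β F p.2.1 ^ 2)
      (MM μ Q (E B)) := by
  unfold MM
  have h1 : Integrable (fun r : (E B → ℝ) × (E B → ℝ) => β F r.1 ^ 2)
      ((infinitePi fun _ : E B => μ).prod (infinitePi fun _ : E B => μ)) :=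
    (hβ.sq F).comp_fst _
  exact h1.comp_snd _

lemma Bnd.measMM (hβ : Bnd μ β C₀) (F : Finset (E B)) :
    Measurable fun p : (Ω × (E B → ℝ)) × ((E B → ℝ) × (E B → ℝ)) => β F p.2.1 :=
  (hβ.meas F).comp (f := fun p : (Ω × (E B → ℝ)) × ((E B → ℝ) × (E B → ℝ)) => p.2.1)
    (by fun_prop)

lemma Bnd.intMM (hβ : Bnd μ β C₀) (F : Finset (E B)) :
    Integrable (fun p : (Ω × (E B → ℝ)) × ((E B → ℝ) × (E B → ℝ)) => β F p.2.1)
      (MM μ Q (E B)) := by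
  refine ((integrable_const (1 : ℝ)).add (hβ.sqMM μ Q F)).mono'
    (hβ.measMM μ F).aestronglyMeasurable (Eventually.of_forall fun p => ?_)
  rw [Real.norm_eq_abs, abs_of_nonneg (hβ.nonneg _ _)]
  show β F p.2.1 ≤ 1 + β F p.2.1 ^ 2
  nlinarith [sq_nonneg (β F p.2.1 - 1)]

variable {μ Q}

lemma Coc.boundz (hδ : Coc μ Q τ δ β) (F : Finset (E B)) : ∀ᵐ p ∂(MM μ Q (E B)),
    |δ F p.1.1 p.2.1 p.1.2| ≤ β F p.2.1 :=
  (rZ_law μ Q).quasiMeasurePreserving.ae (hδ.bound F)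

lemma Coc.measy (hδ : Coc μ Q τ δ β) (F : Finset (E B)) :
    Measurable fun p : (Ω × (E B → ℝ)) × ((E B → ℝ) × (E B → ℝ)) => δ F p.1.1 p.2.1 p.2.2 :=
  (hδ.meas F).comp (f := fun p : (Ω × (E B → ℝ)) × ((E B → ℝ) × (E B → ℝ)) => (p.1.1, p.2))
    (by fun_prop)

lemma Coc.measz (hδ : Coc μ Q τ δ β) (F : Finset (E B)) :
    Measurable fun p : (Ω × (E B → ℝ)) × ((E B → ℝ) × (E B → ℝ)) => δ F p.1.1 p.2.1 p.1.2 :=
  (hδ.meas F).comp (f := fun p : (Ω × (E B → ℝ)) × ((E B → ℝ) × (E B → ℝ)) =>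
    (p.1.1, (p.2.1, p.1.2))) (by fun_prop)

lemma Coc.inty (hβ : Bnd μ β C₀) (hδ : Coc μ Q τ δ β) (F : Finset (E B)) :
    Integrable (fun p : (Ω × (E B → ℝ)) × ((E B → ℝ) × (E B → ℝ)) => δ F p.1.1 p.2.1 p.2.2)
      (MM μ Q (E B)) := by
  refine (hβ.intMM μ Q F).mono' (hδ.measy F).aestronglyMeasurable ?_
  filter_upwards [hδ.bound F] with p hp
  rw [Real.norm_eq_abs]
  exact hp

lemma Coc.intz (hβ : Bnd μ β C₀) (hδ : Coc μ Q τ δ β) (F : Finset (E B)) :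
    Integrable (fun p : (Ω × (E B → ℝ)) × ((E B → ℝ) × (E B → ℝ)) => δ F p.1.1 p.2.1 p.1.2)
      (MM μ Q (E B)) :=
  (rZ_law μ Q).integrable_comp_of_integrable (hδ.inty hβ F)

/-- truncation -/
noncomputable def clp (R x : ℝ) : ℝ := max (-R) (min R x)

lemma clp_le {R x : ℝ} (hR : 0 ≤ R) : |clp R x| ≤ R := by
  unfold clp
  rw [abs_le]
  constructor
  · exact le_max_left _ _
  · exact max_le (by linarith) (min_le_left _ _)

lemma clp_sub {R x L : ℝ} (hR : 0 ≤ R) (hx : |x| ≤ L) : |x - clp R x| ≤ max (L - R) 0 := by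
  unfold clp
  rw [abs_le] at hx
  rcases le_total x (-R) with h | h
  · rw [min_eq_right (by linarith), max_eq_left h]
    rw [abs_of_nonpos (by linarith)]
    exact le_max_of_le_left (by linarith [hx.1])
  · rcases le_total x R with h' | h'
    · rw [min_eq_right h', max_eq_right h, sub_self, abs_zero]
      exact le_max_right _ _
    · rw [min_eq_left h', max_eq_right (by linarith), abs_of_nonneg (by linarith)]
      exact le_max_of_le_left (by linarith [hx.2])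

lemma clp_meas (R : ℝ) : Measurable (clp R) := by
  unfold clp
  exact measurable_const.max (measurable_const.min measurable_id)

variable (μ Q)

/-- the error of the truncation -/
noncomputable def WW (β : Finset (E B) → (E B → ℝ) → ℝ) (N : ℕ) (R : ℝ) : ℝ :=
  ∫ p : (Ω × (E B → ℝ)) × ((E B → ℝ) × (E B → ℝ)), max (β (blk N 0) p.2.1 - R) 0
    ∂(MM μ Q (E B))

/-- the quadratic error of the truncation -/
noncomputable def WQ (β : Finset (E B) → (E B → ℝ) → ℝ) (N : ℕ) (R : ℝ) : ℝ :=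
  ∫ p : (Ω × (E B → ℝ)) × ((E B → ℝ) × (E B → ℝ)), (max (β (blk N 0) p.2.1 - R) 0) ^ 2
    ∂(MM μ Q (E B))

/-- the local function -/
noncomputable def Th (N : ℕ) (g : Ω → (E B → ℝ) → ℝ) (δ : Finset (E B) → Ω → (E B → ℝ) → (E B → ℝ) → ℝ)
    (R : ℝ) (ω : Ω) (J z : E B → ℝ) : ℝ := clp R (-(g ω J * δ (blk N 0) ω J z))

/-- the error of the local approximation -/
noncomputable def HH (N : ℕ) (g : Ω → (E B → ℝ) → ℝ) (δ : Finset (E B) → Ω → (E B → ℝ) → (E B → ℝ) → ℝ)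
    (R : ℝ) (m : ℕ) : ℝ :=
  ∫ p : (Ω × (E B → ℝ)) × ((E B → ℝ) × (E B → ℝ)), |Th N g δ R p.1.1 p.2.1 p.1.2 -
    Th N g δ R p.1.1 (patch (reg N m 0)ᶜ p.2.1 p.2.2) p.1.2| ∂(MM μ Q (E B))

variable {μ Q}

lemma Th_meas {N : ℕ} {g : Ω → (E B → ℝ) → ℝ} (hg : Til μ N g) (hδ : Coc μ Q τ δ β) (R : ℝ) :
    Measurable fun q : Ω × ((E B → ℝ) × (E B → ℝ)) => Th N g δ R q.1 q.2.1 q.2.2 := by
  unfold Th
  have h1 : Measurable fun q : Ω × ((E B → ℝ) × (E B → ℝ)) => g q.1 q.2.1 :=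
    hg.meas.comp (f := fun q : Ω × ((E B → ℝ) × (E B → ℝ)) => (q.1, q.2.1)) (by fun_prop)
  exact (clp_meas R).comp (h1.mul (hδ.meas _)).neg

lemma Th_le {N : ℕ} {g : Ω → (E B → ℝ) → ℝ} {R : ℝ} (hR : 0 ≤ R) (ω : Ω) (J z : E B → ℝ) :
    |Th N g δ R ω J z| ≤ R := clp_le hR

/-- the translate of the local function -/
noncomputable def Tk (τ : V → Ω → Ω) (N : ℕ) (g : Ω → (E B → ℝ) → ℝ)
    (δ : Finset (E B) → Ω → (E B → ℝ) → (E B → ℝ) → ℝ)
    (R : ℝ) (k : V) (ω : Ω) (J z : E B → ℝ) : ℝ :=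
  Th N g δ R (τ (nk N k) ω) (sh (nk N k) J) (sh (nk N k) z)

variable (μ Q)

lemma ZZ_sq {b : V → Set (E B)} {G : V → Ω → (E B → ℝ) → ℝ} (hG : Pert μ b G) {h : ℝ}
    (h0 : 0 ≤ h) (K : Finset V) :
    ∫ p, ZZ h G K p.1.1 p.2.1 ^ 2 ∂(MM μ Q (E B)) ≤ (1 + h ^ 2) ^ K.card := by
  have hZm : Measurable fun p : (Ω × (E B → ℝ)) × ((E B → ℝ) × (E B → ℝ)) =>
      ZZ h G K p.1.1 p.2.1 := (ZZ_meas hG h K).comp
        (f := fun p : (Ω × (E B → ℝ)) × ((E B → ℝ) × (E B → ℝ)) => (p.1.1, p.2.1)) (by fun_prop)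
  have hI6 : Integrable (fun p : (Ω × (E B → ℝ)) × ((E B → ℝ) × (E B → ℝ)) =>
      ZZ h G K p.1.1 p.2.1 ^ 2) (MM μ Q (E B)) :=
    MM_bdd μ Q (hZm.pow_const 2) (C := ((1 + h) ^ K.card) ^ 2) fun p => by
      rw [abs_of_nonneg (sq_nonneg _), ← sq_abs]
      exact pow_le_pow_left₀ (abs_nonneg _) (Zf_le h0 (fun k J => hG.le k _ J) _) 2
  have h12 : ∫ p, ZZ h G K p.1.1 p.2.1 ^ 2 ∂(MM μ Q (E B)) ≤
      ∫ _p, (1 + h ^ 2) ^ K.card ∂(MM μ Q (E B)) := by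
    unfold MM at hI6 ⊢
    rw [integral_prod _ hI6, integral_prod _ (integrable_const _)]
    refine integral_mono hI6.integral_prod_left (integrable_const _).integral_prod_left
      fun q => ?_
    simp only
    have h13 := int_fst μ (fun J => ZZ h G K q.1 J ^ 2)
    rw [h13, integral_const, probReal_univ, one_smul]
    exact Zf_sq μ hG.disj (fun k => hG.dep k _) (fun k => hG.meas' _ k)
      (fun k J => hG.le k _ J) h0 (fun k => hG.mean k _) K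
  refine h12.trans ?_
  rw [integral_const, probReal_univ, one_smul]

variable {μ Q}

lemma est {N : ℕ} (hN : 1 ≤ N) (hβ : Bnd μ β C₀) {g : Ω → (E B → ℝ) → ℝ}
    (hg : Til μ N g) (hδ : Coc μ Q τ δ β) {R t h : ℝ} (hR : 0 ≤ R) (ht : 0 < t) (h0 : 0 ≤ h)
    (h1 : h ≤ 1) (m : ℕ) {K : Finset V} {k : V} (hk : k ∉ K) {F : Finset (E B)}
    (hF : blk N k ⊆ F) :
    -∫ p, g p.1.1 p.2.1 * δ (blk N 0) p.1.1 p.2.1 p.1.2 ∂(MM μ Q (E B)) -
      (WW μ Q β N R + 1 / (2 * t) * WQ μ Q β N R + t * (1 + h ^ 2) ^ K.card +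
        R / t * HH μ Q N g δ R m +
        ((1 + h) ^ ((2 * m + 1) ^ 2) - 1) * R) ≤
    -∫ p, ZZ h (tG τ N g) K p.1.1 p.2.1 * tG τ N g k p.1.1 p.2.1 * δ F p.1.1 p.2.1 p.1.2
      ∂(MM μ Q (E B)) := by
  classical
  have hP := hg.pert hN hδ.tau
  have hZm : Measurable fun p : (Ω × (E B → ℝ)) × ((E B → ℝ) × (E B → ℝ)) =>
      ZZ h (tG τ N g) K p.1.1 p.2.1 := (ZZ_meas hP h K).comp
        (f := fun p : (Ω × (E B → ℝ)) × ((E B → ℝ) × (E B → ℝ)) => (p.1.1, p.2.1)) (by fun_prop)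
  have hGm : Measurable fun p : (Ω × (E B → ℝ)) × ((E B → ℝ) × (E B → ℝ)) =>
      tG τ N g k p.1.1 p.2.1 := (hP.meas k).comp
        (f := fun p : (Ω × (E B → ℝ)) × ((E B → ℝ) × (E B → ℝ)) => (p.1.1, p.2.1)) (by fun_prop)
  have hGym : Measurable fun p : (Ω × (E B → ℝ)) × ((E B → ℝ) × (E B → ℝ)) =>
      tG τ N g k p.1.1 p.2.2 := (hP.meas k).comp
        (f := fun p : (Ω × (E B → ℝ)) × ((E B → ℝ) × (E B → ℝ)) => (p.1.1, p.2.2)) (by fun_prop)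
  have hgm : Measurable fun p : (Ω × (E B → ℝ)) × ((E B → ℝ) × (E B → ℝ)) =>
      g p.1.1 p.2.1 := hg.meas.comp
        (f := fun p : (Ω × (E B → ℝ)) × ((E B → ℝ) × (E B → ℝ)) => (p.1.1, p.2.1)) (by fun_prop)
  have hZb : ∀ ω J, |ZZ h (tG τ N g) K ω J| ≤ (1 + h) ^ K.card := fun ω J =>
    Zf_le h0 (fun k J => hP.le k _ J) _
  have hZ0 : ∀ ω J, 0 ≤ ZZ h (tG τ N g) K ω J := fun ω J =>
    Zf_nonneg h0 h1 (fun k J => hP.le k _ J) _
  set C := (1 + h) ^ K.card with hC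
  have hC0 : 0 ≤ C := by positivity
  -- products of bounded and integrable functions
  have hbi : ∀ {u f : (Ω × (E B → ℝ)) × ((E B → ℝ) × (E B → ℝ)) → ℝ} {c : ℝ}, Measurable u →
      (∀ p, |u p| ≤ c) → Integrable f (MM μ Q (E B)) →
      Integrable (fun p => u p * f p) (MM μ Q (E B)) := fun {u f c} hu hc hf =>
    hf.bdd_mul hu.aestronglyMeasurable (c := c)
      (Eventually.of_forall fun p => by rw [Real.norm_eq_abs]; exact hc p)
  have hu1 : Measurable fun p : (Ω × (E B → ℝ)) × ((E B → ℝ) × (E B → ℝ)) =>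
      ZZ h (tG τ N g) K p.1.1 p.2.1 * tG τ N g k p.1.1 p.2.1 := hZm.mul hGm
  have hu1b : ∀ p : (Ω × (E B → ℝ)) × ((E B → ℝ) × (E B → ℝ)),
      |ZZ h (tG τ N g) K p.1.1 p.2.1 * tG τ N g k p.1.1 p.2.1| ≤ C := fun p => by
    rw [abs_mul]
    have := hZb p.1.1 p.2.1
    have := hP.le k p.1.1 p.2.1
    nlinarith [abs_nonneg (ZZ h (tG τ N g) K p.1.1 p.2.1), abs_nonneg (tG τ N g k p.1.1 p.2.1)]
  -- step 1: the cocycle
  have s1 : ∫ p, ZZ h (tG τ N g) K p.1.1 p.2.1 * tG τ N g k p.1.1 p.2.1 *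
      δ F p.1.1 p.2.1 p.1.2 ∂(MM μ Q (E B)) =
      ∫ p, ZZ h (tG τ N g) K p.1.1 p.2.1 * tG τ N g k p.1.1 p.2.1 *
        δ (blk N k) p.1.1 p.2.1 p.2.2 ∂(MM μ Q (E B)) +
      ∫ p, ZZ h (tG τ N g) K p.1.1 p.2.1 * tG τ N g k p.1.1 p.2.1 *
        δ F p.1.1 (patch (blk N k : Finset (E B)) p.2.1 p.2.2) p.1.2 ∂(MM μ Q (E B)) := by
    have i1 : Integrable (fun p : (Ω × (E B → ℝ)) × ((E B → ℝ) × (E B → ℝ)) =>
        δ F p.1.1 (patch (blk N k : Finset (E B)) p.2.1 p.2.2) p.1.2) (MM μ Q (E B)) :=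
      (aS_law μ Q ((blk N k : Finset (E B)) : Set (E B))).integrable_comp_of_integrable (hδ.intz hβ F)
    rw [← integral_add (hbi hu1 hu1b (hδ.inty hβ (blk N k))) (hbi hu1 hu1b i1)]
    refine integral_congr_ae ?_
    filter_upwards [hδ.coc (blk N k) F hF] with p hp
    rw [hp]; ring
  -- step 2: the second term vanishes
  have hZdep : ∀ ω, Dep ((blk N k : Finset (E B)) : Set (E B))ᶜ (ZZ h (tG τ N g) K ω) := fun ω =>
    Zf_dep (fun j => hP.dep j ω) fun j hj =>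
      Set.subset_compl_iff_disjoint_right.2 (hP.disj (fun e => hk (e ▸ hj)))
  have s2 : ∫ p, ZZ h (tG τ N g) K p.1.1 p.2.1 * tG τ N g k p.1.1 p.2.1 *
        δ F p.1.1 (patch (blk N k : Finset (E B)) p.2.1 p.2.2) p.1.2 ∂(MM μ Q (E B)) = 0 := by
    have e1 : ∫ p, ZZ h (tG τ N g) K p.1.1 p.2.1 * tG τ N g k p.1.1 p.2.1 *
        δ F p.1.1 (patch (blk N k : Finset (E B)) p.2.1 p.2.2) p.1.2 ∂(MM μ Q (E B)) =
        ∫ p, ZZ h (tG τ N g) K p.1.1 p.2.1 * tG τ N g k p.1.1 p.2.2 *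
          δ F p.1.1 p.2.1 p.1.2 ∂(MM μ Q (E B)) := by
      rw [← aS_int μ Q ((blk N k : Finset (E B)) : Set (E B)) (fun p =>
        ZZ h (tG τ N g) K p.1.1 p.2.1 * tG τ N g k p.1.1 p.2.2 * δ F p.1.1 p.2.1 p.1.2)]
      refine integral_congr_ae (Eventually.of_forall fun p => ?_)
      show _ = ZZ h (tG τ N g) K p.1.1 (patch _ p.2.1 p.2.2) *
        tG τ N g k p.1.1 (patch _ p.2.2 p.2.1) * δ F p.1.1 (patch _ p.2.1 p.2.2) p.1.2
      rw [(hZdep _).patch_out disjoint_compl_left, (hP.dep k _).patch_in le_rfl]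
    rw [e1]
    have i1 : Integrable (fun p : (Ω × (E B → ℝ)) × ((E B → ℝ) × (E B → ℝ)) =>
        ZZ h (tG τ N g) K p.1.1 p.2.1 * tG τ N g k p.1.1 p.2.2 *
          δ F p.1.1 p.2.1 p.1.2) (MM μ Q (E B)) :=
      hbi (c := C) (hZm.mul hGym) (fun p => by
        rw [abs_mul]
        have := hZb p.1.1 p.2.1
        have := hP.le k p.1.1 p.2.2
        nlinarith [abs_nonneg (ZZ h (tG τ N g) K p.1.1 p.2.1),
          abs_nonneg (tG τ N g k p.1.1 p.2.2)]) (hδ.intz hβ F)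
    have e2 := MM_congr μ Q (g := fun _ => (0 : ℝ)) i1 (integrable_zero _ _ _) fun q => by
      simp only [integral_zero]
      have e3 : ∀ r : (E B → ℝ) × (E B → ℝ), ZZ h (tG τ N g) K q.1 r.1 * tG τ N g k q.1 r.2 *
          δ F q.1 r.1 q.2 = (ZZ h (tG τ N g) K q.1 r.1 * δ F q.1 r.1 q.2) *
            tG τ N g k q.1 r.2 := fun r => by ring
      simp only [e3]
      rw [integral_prod_mul (fun J => ZZ h (tG τ N g) K q.1 J * δ F q.1 J q.2)
        (tG τ N g k q.1), hP.mean, mul_zero]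
    rw [e2, integral_zero]
  -- step 3: rename
  have s3 : ∫ p, ZZ h (tG τ N g) K p.1.1 p.2.1 * tG τ N g k p.1.1 p.2.1 *
        δ (blk N k) p.1.1 p.2.1 p.2.2 ∂(MM μ Q (E B)) =
      ∫ p, ZZ h (tG τ N g) K p.1.1 p.2.1 * tG τ N g k p.1.1 p.2.1 *
        δ (blk N k) p.1.1 p.2.1 p.1.2 ∂(MM μ Q (E B)) :=
    (rZ_int μ Q (fun p => ZZ h (tG τ N g) K p.1.1 p.2.1 * tG τ N g k p.1.1 p.2.1 *
        δ (blk N k) p.1.1 p.2.1 p.2.2)).symm
  -- the truncation errors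
  have hwm : Measurable fun p : (Ω × (E B → ℝ)) × ((E B → ℝ) × (E B → ℝ)) =>
      max (β (blk N 0) p.2.1 - R) 0 :=
    ((hβ.measMM μ (blk N 0)).sub measurable_const).max measurable_const
  have hwi : Integrable (fun p : (Ω × (E B → ℝ)) × ((E B → ℝ) × (E B → ℝ)) =>
      max (β (blk N 0) p.2.1 - R) 0) (MM μ Q (E B)) :=
    ((hβ.intMM μ Q (blk N 0)).sub (integrable_const R)).pos_part
  have hwq : Integrable (fun p : (Ω × (E B → ℝ)) × ((E B → ℝ) × (E B → ℝ)) =>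
      (max (β (blk N 0) p.2.1 - R) 0) ^ 2) (MM μ Q (E B)) := by
    refine (hβ.sqMM μ Q (blk N 0)).mono' (hwm.pow_const 2).aestronglyMeasurable
      (Eventually.of_forall fun p => ?_)
    rw [Real.norm_eq_abs, abs_of_nonneg (sq_nonneg _)]
    have h2 : max (β (blk N 0) p.2.1 - R) 0 ≤ β (blk N 0) p.2.1 :=
      max_le (by linarith) (hβ.nonneg _ _)
    exact pow_le_pow_left₀ (le_max_right _ _) h2 2
  -- step 4
  have hψ : ∀ᵐ p ∂(MM μ Q (E B)), -(tG τ N g k p.1.1 p.2.1 * δ (blk N k) p.1.1 p.2.1 p.1.2) =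
      -(g (τ (nk N k) p.1.1) (sh (nk N k) p.2.1) *
        δ (blk N 0) (τ (nk N k) p.1.1) (sh (nk N k) p.2.1) (sh (nk N k) p.1.2)) := by
    have h2 := (rZ_law μ Q).quasiMeasurePreserving.ae
      (hδ.shift (nk N k) (blk N 0) (blk N k) (blk_shift N k))
    filter_upwards [h2] with p hp
    have hp' : δ (blk N k) p.1.1 p.2.1 p.1.2 =
      δ (blk N 0) (τ (nk N k) p.1.1) (sh (nk N k) p.2.1) (sh (nk N k) p.1.2) := hp
    rw [hp']
    rfl
  have hψ0 : ∀ᵐ p ∂(MM μ Q (E B)), |-(g p.1.1 p.2.1 * δ (blk N 0) p.1.1 p.2.1 p.1.2)| ≤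
      β (blk N 0) p.2.1 := by
    filter_upwards [hδ.boundz (blk N 0)] with p hp
    rw [abs_neg, abs_mul]
    have := hg.le p.1.1 p.2.1
    nlinarith [abs_nonneg (g p.1.1 p.2.1), abs_nonneg (δ (blk N 0) p.1.1 p.2.1 p.1.2)]
  have hcl0 : ∀ᵐ p ∂(MM μ Q (E B)), |-(g p.1.1 p.2.1 * δ (blk N 0) p.1.1 p.2.1 p.1.2) -
      Th N g δ R p.1.1 p.2.1 p.1.2| ≤ max (β (blk N 0) p.2.1 - R) 0 := by
    filter_upwards [hψ0] with p hp
    exact clp_sub hR hp
  have hclk := (Tr_law μ Q hδ.tau (nk N k)).quasiMeasurePreserving.ae hcl0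
  have hThm : Measurable fun p : (Ω × (E B → ℝ)) × ((E B → ℝ) × (E B → ℝ)) =>
      Th N g δ R p.1.1 p.2.1 p.1.2 := (Th_meas hg hδ R).comp
        (f := fun p : (Ω × (E B → ℝ)) × ((E B → ℝ) × (E B → ℝ)) => (p.1.1, (p.2.1, p.1.2)))
        (by fun_prop)
  have hTrm := (Tr_law (B := B) μ Q hδ.tau (nk N k)).measurable
  have hTkm : Measurable fun p : (Ω × (E B → ℝ)) × ((E B → ℝ) × (E B → ℝ)) =>
      Tk τ N g δ R k p.1.1 p.2.1 p.1.2 := hThm.comp hTrm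
  have hTki : Integrable (fun p : (Ω × (E B → ℝ)) × ((E B → ℝ) × (E B → ℝ)) =>
      Tk τ N g δ R k p.1.1 p.2.1 p.1.2) (MM μ Q (E B)) :=
    MM_bdd μ Q hTkm fun p => Th_le hR _ _ _
  have hThi : Integrable (fun p : (Ω × (E B → ℝ)) × ((E B → ℝ) × (E B → ℝ)) =>
      Th N g δ R p.1.1 p.2.1 p.1.2) (MM μ Q (E B)) :=
    MM_bdd μ Q hThm fun p => Th_le hR _ _ _
  have hwki : Integrable (fun p : (Ω × (E B → ℝ)) × ((E B → ℝ) × (E B → ℝ)) =>
      max (β (blk N 0) (sh (nk N k) p.2.1) - R) 0) (MM μ Q (E B)) :=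
    (Tr_law μ Q hδ.tau (nk N k)).integrable_comp_of_integrable hwi
  have hwkq : Integrable (fun p : (Ω × (E B → ℝ)) × ((E B → ℝ) × (E B → ℝ)) =>
      (max (β (blk N 0) (sh (nk N k) p.2.1) - R) 0) ^ 2) (MM μ Q (E B)) :=
    (Tr_law μ Q hδ.tau (nk N k)).integrable_comp_of_integrable hwq
  have hZ2 : Integrable (fun p : (Ω × (E B → ℝ)) × ((E B → ℝ) × (E B → ℝ)) =>
      ZZ h (tG τ N g) K p.1.1 p.2.1 ^ 2) (MM μ Q (E B)) :=
    MM_bdd μ Q (hZm.pow_const 2) (C := C ^ 2) fun p => by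
      rw [abs_of_nonneg (sq_nonneg _), ← sq_abs]
      exact pow_le_pow_left₀ (abs_nonneg _) (hZb _ _) 2
  -- the integral of the error
  have s4 : ∫ p, ZZ h (tG τ N g) K p.1.1 p.2.1 * max (β (blk N 0) (sh (nk N k) p.2.1) - R) 0
      ∂(MM μ Q (E B)) ≤ t / 2 * (1 + h ^ 2) ^ K.card + 1 / (2 * t) * WQ μ Q β N R := by
    have e1 : ∫ p, ZZ h (tG τ N g) K p.1.1 p.2.1 *
        max (β (blk N 0) (sh (nk N k) p.2.1) - R) 0 ∂(MM μ Q (E B)) ≤
        ∫ p, (t / 2 * ZZ h (tG τ N g) K p.1.1 p.2.1 ^ 2 + 1 / (2 * t) *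
          (max (β (blk N 0) (sh (nk N k) p.2.1) - R) 0) ^ 2) ∂(MM μ Q (E B)) := by
      refine integral_mono (hbi hZm (fun p => hZb _ _) hwki)
        ((hZ2.const_mul (t / 2)).add (hwkq.const_mul (1 / (2 * t)))) fun p => ?_
      simp only
      set x := ZZ h (tG τ N g) K p.1.1 p.2.1
      set y := max (β (blk N 0) (sh (nk N k) p.2.1) - R) 0
      have h5 : t / 2 * x ^ 2 + 1 / (2 * t) * y ^ 2 - x * y = (t * x - y) ^ 2 / (2 * t) := by
        field_simp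
        ring
      have h6 : 0 ≤ (t * x - y) ^ 2 / (2 * t) := by positivity
      linarith
    have e2 : ∫ p, (max (β (blk N 0) (sh (nk N k) p.2.1) - R) 0) ^ 2 ∂(MM μ Q (E B)) =
        WQ μ Q β N R := by
      unfold WQ
      rw [← Tr_int μ Q hδ.tau (nk N k) (hwm.pow_const 2)]
      rfl
    rw [integral_add (hZ2.const_mul _) (hwkq.const_mul _), integral_const_mul,
      integral_const_mul, e2] at e1
    have e3 := ZZ_sq μ Q hP h0 K
    have e4 : 0 ≤ t / 2 := by linarith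
    nlinarith
  -- step 5: decoupling
  set K1 := K.filter fun j => j ∈ nb m k with hK1
  set K2 := K.filter fun j => j ∉ nb m k with hK2
  have hKK : K = K1 ∪ K2 := (Finset.filter_union_filter_not_eq _ _).symm
  have hKd : Disjoint K1 K2 := Finset.disjoint_filter_filter_not _ _ _
  have hc1 : K1.card ≤ (2 * m + 1) ^ 2 := by
    rw [← card_nb m k]
    exact Finset.card_le_card fun j hj => (Finset.mem_filter.1 hj).2
  have s5 := decouple μ Q hP h0 (Θ := Tk τ N g δ R k)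
    ((Th_meas hg hδ R).comp (f := fun q : Ω × ((E B → ℝ) × (E B → ℝ)) =>
      (τ (nk N k) q.1, (sh (nk N k) q.2.1, sh (nk N k) q.2.2)))
      (((hδ.tau _).measurable.comp measurable_fst).prodMk
        (((measurable_sh _).comp (measurable_fst.comp measurable_snd)).prodMk
          ((measurable_sh _).comp (measurable_snd.comp measurable_snd)))))
    (R := R) (fun ω J z => Th_le hR _ _ _) (I := reg N m k) hKK hKd
    (fun j hj => by
      have h2 := (Finset.mem_filter.1 hj).2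
      unfold reg
      exact Set.subset_biUnion_of_mem (u := fun j => ((blk N j : Finset (E B)) : Set (E B))) h2)
    (fun j hj => by
      have h2 := (Finset.mem_filter.1 hj).2
      unfold reg
      rw [Set.disjoint_iUnion₂_right]
      intro i hi
      exact hP.disj (fun e => h2 (e ▸ hi))) ht
  have s6 : ∫ p, |Tk τ N g δ R k p.1.1 p.2.1 p.1.2 -
      Tk τ N g δ R k p.1.1 (patch (reg N m k)ᶜ p.2.1 p.2.2) p.1.2| ∂(MM μ Q (E B)) =
      HH μ Q N g δ R m := by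
    unfold HH
    have hm : Measurable fun p : (Ω × (E B → ℝ)) × ((E B → ℝ) × (E B → ℝ)) =>
        |Th N g δ R p.1.1 p.2.1 p.1.2 -
          Th N g δ R p.1.1 (patch (reg N m 0)ᶜ p.2.1 p.2.2) p.1.2| := by
      refine (hThm.sub ((Th_meas hg hδ R).comp
        (f := fun p : (Ω × (E B → ℝ)) × ((E B → ℝ) × (E B → ℝ)) =>
          (p.1.1, (patch (reg N m 0)ᶜ p.2.1 p.2.2, p.1.2))) ?_)).abs
      exact (measurable_fst.comp measurable_fst).prodMk
        (((measurable_patch _).comp measurable_snd).prodMk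
          (measurable_snd.comp measurable_fst))
    rw [← Tr_int μ Q hδ.tau (nk N k) hm]
    refine integral_congr_ae (Eventually.of_forall fun p => ?_)
    show _ = |Th N g δ R (τ (nk N k) p.1.1) (sh (nk N k) p.2.1) (sh (nk N k) p.1.2) -
      Th N g δ R (τ (nk N k) p.1.1)
        (patch (reg N m 0)ᶜ (sh (nk N k) p.2.1) (sh (nk N k) p.2.2)) (sh (nk N k) p.1.2)|
    have h2 := sh_patch (a := nk N k) (F := (reg N m 0)ᶜ) (F' := (reg N m k)ᶜ)
      (fun e => by rw [Set.mem_compl_iff, Set.mem_compl_iff, reg_shift]) p.2.1 p.2.2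
    rw [← h2]
    rfl
  have s7 : ∫ p, Tk τ N g δ R k p.1.1 p.2.1 p.1.2 ∂(MM μ Q (E B)) =
      ∫ p, Th N g δ R p.1.1 p.2.1 p.1.2 ∂(MM μ Q (E B)) := Tr_int μ Q hδ.tau (nk N k) hThm
  rw [s6, s7] at s5
  -- step 6: put together
  have i0 : Integrable (fun p : (Ω × (E B → ℝ)) × ((E B → ℝ) × (E B → ℝ)) =>
      -(g p.1.1 p.2.1 * δ (blk N 0) p.1.1 p.2.1 p.1.2)) (MM μ Q (E B)) :=
    (hbi (c := 1) hgm (fun p => hg.le _ _) (hδ.intz hβ _)).neg
  have s8 : -∫ p, g p.1.1 p.2.1 * δ (blk N 0) p.1.1 p.2.1 p.1.2 ∂(MM μ Q (E B)) - WW μ Q β N R ≤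
      ∫ p, Th N g δ R p.1.1 p.2.1 p.1.2 ∂(MM μ Q (E B)) := by
    unfold WW
    rw [← integral_neg, ← integral_sub i0 hwi]
    refine integral_mono_ae (i0.sub hwi) hThi ?_
    filter_upwards [hcl0] with p hp
    have := (abs_le.1 hp).2
    show -(g p.1.1 p.2.1 * δ (blk N 0) p.1.1 p.2.1 p.1.2) -
      max (β (blk N 0) p.2.1 - R) 0 ≤ _
    linarith
  have i9 : Integrable (fun p : (Ω × (E B → ℝ)) × ((E B → ℝ) × (E B → ℝ)) =>
      ZZ h (tG τ N g) K p.1.1 p.2.1 * tG τ N g k p.1.1 p.2.1 *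
        δ (blk N k) p.1.1 p.2.1 p.1.2) (MM μ Q (E B)) := hbi hu1 hu1b (hδ.intz hβ _)
  have s9 : ∫ p, ZZ h (tG τ N g) K p.1.1 p.2.1 * Tk τ N g δ R k p.1.1 p.2.1 p.1.2
      ∂(MM μ Q (E B)) - (t / 2 * (1 + h ^ 2) ^ K.card + 1 / (2 * t) * WQ μ Q β N R) ≤
      -∫ p, ZZ h (tG τ N g) K p.1.1 p.2.1 * tG τ N g k p.1.1 p.2.1 *
        δ (blk N k) p.1.1 p.2.1 p.1.2 ∂(MM μ Q (E B)) := by
    have e1 : ∫ p, ZZ h (tG τ N g) K p.1.1 p.2.1 * Tk τ N g δ R k p.1.1 p.2.1 p.1.2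
        ∂(MM μ Q (E B)) - ∫ p, ZZ h (tG τ N g) K p.1.1 p.2.1 *
          max (β (blk N 0) (sh (nk N k) p.2.1) - R) 0 ∂(MM μ Q (E B)) ≤
        -∫ p, ZZ h (tG τ N g) K p.1.1 p.2.1 * tG τ N g k p.1.1 p.2.1 *
          δ (blk N k) p.1.1 p.2.1 p.1.2 ∂(MM μ Q (E B)) := by
      rw [← integral_neg, ← integral_sub (hbi hZm (fun p => hZb _ _) hTki)
        (hbi hZm (fun p => hZb _ _) hwki)]
      refine integral_mono_ae ((hbi hZm (fun p => hZb _ _) hTki).sub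
        (hbi hZm (fun p => hZb _ _) hwki)) i9.neg ?_
      filter_upwards [hclk, hψ] with p hp hp'
      have h2 : |-(g (τ (nk N k) p.1.1) (sh (nk N k) p.2.1) *
          δ (blk N 0) (τ (nk N k) p.1.1) (sh (nk N k) p.2.1) (sh (nk N k) p.1.2)) -
          Tk τ N g δ R k p.1.1 p.2.1 p.1.2| ≤
          max (β (blk N 0) (sh (nk N k) p.2.1) - R) 0 := hp
      rw [← hp'] at h2
      have h3 := (abs_le.1 h2).1
      have h4 := hZ0 p.1.1 p.2.1
      show ZZ h (tG τ N g) K p.1.1 p.2.1 * Tk τ N g δ R k p.1.1 p.2.1 p.1.2 -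
        ZZ h (tG τ N g) K p.1.1 p.2.1 * max (β (blk N 0) (sh (nk N k) p.2.1) - R) 0 ≤
        -(ZZ h (tG τ N g) K p.1.1 p.2.1 * tG τ N g k p.1.1 p.2.1 *
          δ (blk N k) p.1.1 p.2.1 p.1.2)
      nlinarith
    linarith
  have h10 : (1 + h) ^ K1.card ≤ (1 + h) ^ ((2 * m + 1) ^ 2) :=
    pow_le_pow_right₀ (by linarith) hc1
  have h11 : ((1 + h) ^ K1.card - 1) * R ≤ ((1 + h) ^ ((2 * m + 1) ^ 2) - 1) * R :=
    mul_le_mul_of_nonneg_right (by linarith) hR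
  have s5' := (abs_le.1 s5).1
  rw [s1, s2, s3, add_zero]
  linarith

end

end Pool.Agent.Helper43.EA
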