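import Pool.Agent.Helper43.EA.Dec

/-!
# Blocks of bonds of the plane, and cocycles of energies
-/

set_option autoImplicit false

open MeasureTheory Measure Filter Topology

namespace Pool.Agent.Helper43.EA

/-- the translations -/
abbrev V : Type := Fin 2 → ℤ

/-- the bonds: `B` is the set of the orbits of bonds -/
abbrev E (B : Type) : Type := (Fin 2 → ℤ) × B

variable {B : Type}

/-- translation of a bond -/
def st (a : V) (e : E B) : E B := (e.1 + a, e.2)

/-- translation of couplings -/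
def sh (a : V) (J : E B → ℝ) : E B → ℝ := fun e => J (e.1 + a, e.2)

lemma sh_apply (a : V) (J : E B → ℝ) (e : E B) : sh a J e = J (st a e) := rfl

lemma st_inj (a : V) : Function.Injective (st a : E B → E B) := by
  intro e e' h
  simp only [st, Prod.mk.injEq] at h
  exact Prod.ext (add_right_cancel h.1) h.2

lemma st_surj (a : V) (e : E B) : st a (st (-a) e) = e := by
  simp [st]

lemma measurable_sh (a : V) : Measurable (sh a : (E B → ℝ) → (E B → ℝ)) := by
  unfold sh; fun_prop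

lemma sh_patch {a : V} {F F' : Set (E B)} (h : ∀ e, e ∈ F ↔ st a e ∈ F') (J y : E B → ℝ) :
    sh a (patch F' J y) = patch F (sh a J) (sh a y) := by
  funext e
  by_cases he : e ∈ F
  · rw [patch_mem he, sh_apply, patch_mem ((h e).1 he)]; rfl
  · rw [patch_not he, sh_apply, patch_not (fun hc => he ((h e).2 hc))]; rfl

variable [Fintype B]

/-- the block of side `N` at the position `k` -/
noncomputable def blk (N : ℕ) (k : V) : Finset (E B) :=
  (Fintype.piFinset fun i => Finset.Ico ((N : ℤ) * k i) (N * k i + N)) ×ˢ Finset.univ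

lemma mem_blk {N : ℕ} {k : V} {e : E B} :
    e ∈ blk N k ↔ ∀ i, (N : ℤ) * k i ≤ e.1 i ∧ e.1 i < N * k i + N := by
  unfold blk
  rw [Finset.mem_product, Fintype.mem_piFinset]
  simp only [Finset.mem_Ico, Finset.mem_univ, and_true]

/-- the translation vector of a block -/
def nk (N : ℕ) (k : V) : V := fun i => N * k i

lemma blk_shift (N : ℕ) (k : V) (e : E B) : e ∈ blk N 0 ↔ st (nk N k) e ∈ blk N k := by
  rw [mem_blk, mem_blk]
  refine forall_congr' fun i => ?_
  unfold st nk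
  simp only [Pi.zero_apply, mul_zero, Pi.add_apply]
  constructor <;> rintro ⟨h1, h2⟩ <;> constructor <;> linarith

lemma blk_shift' (N : ℕ) (j k : V) (e : E B) : e ∈ blk N j ↔ st (nk N k) e ∈ blk N (j + k) := by
  rw [mem_blk, mem_blk]
  refine forall_congr' fun i => ?_
  unfold st nk
  simp only [Pi.add_apply]
  constructor <;> rintro ⟨h1, h2⟩ <;> constructor <;> linarith

lemma blk_disj {N : ℕ} (hN : 1 ≤ N) :
    Pairwise fun j k : V => Disjoint ((blk N j : Finset (E B)) : Set (E B)) (blk N k : Finset (E B)) := by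
  intro j k hjk
  rw [Set.disjoint_left]
  intro e h1 h2
  rw [Finset.mem_coe, mem_blk] at h1 h2
  apply hjk
  funext i
  have hN' : (1 : ℤ) ≤ N := by exact_mod_cast hN
  obtain ⟨a1, a2⟩ := h1 i
  obtain ⟨b1, b2⟩ := h2 i
  have c1 : (N : ℤ) * j i < N * (k i + 1) := by linarith
  have c2 : (N : ℤ) * k i < N * (j i + 1) := by linarith
  have d1 := lt_of_mul_lt_mul_left c1 (by linarith)
  have d2 := lt_of_mul_lt_mul_left c2 (by linarith)
  omega

/-- the positions near `k` -/
noncomputable def nb (m : ℕ) (k : V) : Finset V :=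
  Fintype.piFinset fun i => Finset.Icc (k i - m) (k i + m)

lemma mem_nb {m : ℕ} {k j : V} : j ∈ nb m k ↔ ∀ i, k i - m ≤ j i ∧ j i ≤ k i + m := by
  unfold nb
  rw [Fintype.mem_piFinset]
  simp only [Finset.mem_Icc]

lemma card_nb (m : ℕ) (k : V) : (nb m k).card = (2 * m + 1) ^ 2 := by
  unfold nb
  rw [Fintype.card_piFinset]
  have : ∀ i : Fin 2, (Finset.Icc (k i - m) (k i + m)).card = 2 * m + 1 := by
    intro i
    rw [Int.card_Icc]
    omega
  simp [this]

/-- the bonds near the block at `k` -/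
def reg (N m : ℕ) (k : V) : Set (E B) := ⋃ j ∈ nb m k, ((blk N j : Finset (E B)) : Set (E B))

lemma reg_shift (N m : ℕ) (k : V) (e : E B) : e ∈ reg N m 0 ↔ st (nk N k) e ∈ reg N m k := by
  unfold reg
  simp only [Set.mem_iUnion, Finset.mem_coe, exists_prop]
  constructor
  · rintro ⟨j, hj, he⟩
    refine ⟨j + k, ?_, (blk_shift' N j k e).1 he⟩
    rw [mem_nb] at hj ⊢
    intro i
    have := hj i
    simp only [Pi.add_apply, Pi.zero_apply] at this ⊢
    omega
  · rintro ⟨j, hj, he⟩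
    refine ⟨j - k, ?_, (blk_shift' N (j - k) k e).2 (by rwa [sub_add_cancel])⟩
    rw [mem_nb] at hj ⊢
    intro i
    have := hj i
    simp only [Pi.sub_apply, Pi.zero_apply] at this ⊢
    omega

lemma reg_exhaust {N : ℕ} (hN : 1 ≤ N) (e : E B) : ∀ᶠ m in atTop, e ∈ reg N m 0 := by
  have hN' : (0 : ℤ) < N := by exact_mod_cast hN
  filter_upwards [eventually_ge_atTop (Finset.univ.sup fun i => (e.1 i / (N : ℤ)).natAbs)]
    with m hm
  unfold reg
  simp only [Set.mem_iUnion, Finset.mem_coe, exists_prop]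
  refine ⟨fun i => e.1 i / N, ?_, ?_⟩
  · rw [mem_nb]
    intro i
    have h1 : (e.1 i / (N : ℤ)).natAbs ≤ m :=
      (Finset.le_sup (f := fun i => (e.1 i / (N : ℤ)).natAbs) (Finset.mem_univ i)).trans hm
    simp only [Pi.zero_apply]
    omega
  · rw [mem_blk]
    intro i
    have h1 := Int.emod_add_mul_ediv (e.1 i) N
    have h2 := Int.emod_nonneg (e.1 i) hN'.ne'
    have h3 := Int.emod_lt_of_pos (e.1 i) hN'
    constructor <;> linarith

/-- the positions of `n ^ 2` blocks -/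
noncomputable def pos (n : ℕ) : Finset V := Fintype.piFinset fun _ => Finset.Ico (0 : ℤ) n

lemma mem_pos {n : ℕ} {k : V} : k ∈ pos n ↔ ∀ i, 0 ≤ k i ∧ k i < n := by
  unfold pos
  rw [Fintype.mem_piFinset]
  simp only [Finset.mem_Ico]

lemma card_pos (n : ℕ) : (pos n).card = n ^ 2 := by
  unfold pos
  rw [Fintype.card_piFinset]
  simp

lemma blk_sub_blk {N n : ℕ} {k : V} (hk : ∀ i, 0 ≤ k i ∧ k i < n) :
    (blk N k : Finset (E B)) ⊆ blk (n * N) 0 := by
  intro e he
  rw [mem_blk] at he ⊢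
  have hN0 : (0 : ℤ) ≤ N := Nat.cast_nonneg N
  intro i
  obtain ⟨a, b⟩ := he i
  obtain ⟨c, d⟩ := hk i
  have h2 : (N : ℤ) * (k i + 1) ≤ N * n := mul_le_mul_of_nonneg_left (by omega) hN0
  push_cast
  simp only [Pi.zero_apply, mul_zero]
  constructor
  · nlinarith
  · nlinarith

section coc

variable {Ω : Type*} [MeasurableSpace Ω] (μ : Measure ℝ) [IsProbabilityMeasure μ]
  (Q : Measure Ω) [IsProbabilityMeasure Q]

lemma sh_law (a : V) : MeasurePreserving (sh a) (infinitePi fun _ : E B => μ)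
    (infinitePi fun _ : E B => μ) :=
  ⟨measurable_sh a, map_infinitePi_infinitePi_of_inj (P := fun _ => μ) (st_inj a)⟩

/-- translation of everything -/
def Tr (τ : V → Ω → Ω) (a : V) (p : (Ω × (E B → ℝ)) × ((E B → ℝ) × (E B → ℝ))) :
    (Ω × (E B → ℝ)) × ((E B → ℝ) × (E B → ℝ)) :=
  ((τ a p.1.1, sh a p.1.2), (sh a p.2.1, sh a p.2.2))

lemma Tr_law {τ : V → Ω → Ω} (hτ : ∀ a, MeasurePreserving (τ a) Q Q) (a : V) :
    MeasurePreserving (Tr τ a) (MM μ Q (E B)) (MM μ Q (E B)) :=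
  ((hτ a).prod (sh_law μ a)).prod ((sh_law μ a).prod (sh_law μ a))

lemma Tr_int {τ : V → Ω → Ω} (hτ : ∀ a, MeasurePreserving (τ a) Q Q) (a : V)
    {f : (Ω × (E B → ℝ)) × ((E B → ℝ) × (E B → ℝ)) → ℝ} (hf : Measurable f) :
    ∫ p, f (Tr τ a p) ∂(MM μ Q (E B)) = ∫ p, f p ∂(MM μ Q (E B)) := by
  rw [← (Tr_law μ Q hτ a).map_eq, integral_map (Tr_law μ Q hτ a).measurable.aemeasurable
    hf.aestronglyMeasurable, (Tr_law μ Q hτ a).map_eq]

/-- bounds for the differences: they depend only on the couplings outside of the finite set, they are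
square integrable, and for boxes the mean is at most of the order of the side -/
structure Bnd (β : Finset (E B) → (E B → ℝ) → ℝ) (C : ℝ) : Prop where
  nonneg : ∀ F J, 0 ≤ β F J
  meas : ∀ F, Measurable (β F)
  dep : ∀ F : Finset (E B), Dep ((F : Set (E B))ᶜ) (β F)
  sq : ∀ F, Integrable (fun J => β F J ^ 2) (infinitePi fun _ : E B => μ)
  lin : ∀ m : ℕ, ∫ J, β (blk m 0) J ∂(infinitePi fun _ : E B => μ) ≤ C * (m + 1)

/-- A family of differences: `δ F ω J y` is the difference of two energies which depend on the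
couplings, when the couplings `J` in `F` are replaced by `y`. -/
structure Coc (τ : V → Ω → Ω) (δ : Finset (E B) → Ω → (E B → ℝ) → (E B → ℝ) → ℝ)
    (β : Finset (E B) → (E B → ℝ) → ℝ) : Prop where
  tau : ∀ a, MeasurePreserving (τ a) Q Q
  meas : ∀ F, Measurable fun q : Ω × ((E B → ℝ) × (E B → ℝ)) => δ F q.1 q.2.1 q.2.2
  coc : ∀ b F : Finset (E B), b ⊆ F → ∀ᵐ p ∂(MM μ Q (E B)),
    δ F p.1.1 p.2.1 p.1.2 = δ b p.1.1 p.2.1 p.2.2 + δ F p.1.1 (patch b p.2.1 p.2.2) p.1.2
  shift : ∀ (a : V) (F F' : Finset (E B)), (∀ e, e ∈ F ↔ st a e ∈ F') → ∀ᵐ p ∂(MM μ Q (E B)),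
    δ F' p.1.1 p.2.1 p.2.2 = δ F (τ a p.1.1) (sh a p.2.1) (sh a p.2.2)
  bound : ∀ F : Finset (E B), ∀ᵐ p ∂(MM μ Q (E B)),
    |δ F p.1.1 p.2.1 p.2.2| ≤ β F p.2.1

end coc

end Pool.Agent.Helper43.EA
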