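import Pool.Agent.Helper43.EA.Det

/-!
# Clusters of bonds with large couplings
-/

set_option autoImplicit false
set_option linter.unusedSectionVars false

open MeasureTheory Measure Filter Topology
open scoped ENNReal

namespace Pool.Agent.Helper43.EA

variable {A B : Type} [Fintype B] (G : PG A B) (K : ℝ) (S : Set (X A))

/-- the sites reached from `S` by at most `k` bonds with large couplings -/
def Wk : ℕ → (E B → ℝ) → Set (X A)
  | 0, _ => S
  | k + 1, J => Wk k J ∪ {v | ∃ e : E B, K < |J e| ∧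
      ((G.src e ∈ Wk k J ∧ G.tgt e = v) ∨ (G.tgt e ∈ Wk k J ∧ G.src e = v))}

/-- the sites reached from `S` by `k` bonds with large couplings, but not by fewer -/
def Lk : ℕ → (E B → ℝ) → Set (X A)
  | 0, _ => S
  | k + 1, J => Wk G K S (k + 1) J \ Wk G K S k J

lemma Wk_zero (J : E B → ℝ) : Wk G K S 0 J = S := rfl

lemma Wk_succ (k : ℕ) (J : E B → ℝ) : Wk G K S (k + 1) J = Wk G K S k J ∪
    {v | ∃ e : E B, K < |J e| ∧ ((G.src e ∈ Wk G K S k J ∧ G.tgt e = v) ∨
      (G.tgt e ∈ Wk G K S k J ∧ G.src e = v))} := rfl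

lemma Lk_succ (k : ℕ) (J : E B → ℝ) :
    Lk G K S (k + 1) J = Wk G K S (k + 1) J \ Wk G K S k J := rfl

lemma Wk_mono {j k : ℕ} (h : j ≤ k) (J : E B → ℝ) : Wk G K S j J ⊆ Wk G K S k J := by
  induction h with
  | refl => exact le_rfl
  | step _ ih => exact ih.trans (by rw [Wk_succ]; exact Set.subset_union_left)

lemma Wk_congr {J J' : E B → ℝ} (h : ∀ e, K < |J e| ↔ K < |J' e|) (k : ℕ) :
    Wk G K S k J = Wk G K S k J' := by
  induction k with
  | zero => rfl
  | succ k ih => rw [Wk_succ, Wk_succ, ih]; simp only [h]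

lemma Lk_congr {J J' : E B → ℝ} (h : ∀ e, K < |J e| ↔ K < |J' e|) (k : ℕ) :
    Lk G K S k J = Lk G K S k J' := by
  cases k with
  | zero => rfl
  | succ k => rw [Lk_succ, Lk_succ, Wk_congr G K S h, Wk_congr G K S h]

/-- the coupling of the bond `e` is set to zero -/
noncomputable def off (e : E B) (J : E B → ℝ) : E B → ℝ := patch {e} J (fun _ => 0)

lemma off_self (e : E B) (J : E B → ℝ) : off e J e = 0 :=
  patch_mem (Set.mem_singleton e) _ _

lemma off_ne {e e' : E B} (h : e' ≠ e) (J : E B → ℝ) : off e J e' = J e' :=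
  patch_not (by simpa using h) _ _

variable {G K S}

lemma Wk_off (hK : 0 ≤ K) {J : E B → ℝ} {e : E B} {v : X A} (hv : G.src e = v ∨ G.tgt e = v)
    {k : ℕ} (hvk : v ∉ Wk G K S k J) : ∀ j ≤ k, Wk G K S j (off e J) = Wk G K S j J := by
  intro j
  induction j with
  | zero => intro _; rfl
  | succ j ih =>
    intro hj
    have h1 := ih (by omega)
    have h2 : v ∉ Wk G K S (j + 1) J := fun h => hvk (Wk_mono G K S hj J h)
    have h3 : v ∉ Wk G K S j J := fun h => hvk (Wk_mono G K S (by omega) J h)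
    rw [Wk_succ, Wk_succ, h1]
    congr 1
    ext x
    simp only [Set.mem_ofPred_eq]
    constructor
    · rintro ⟨e', he', h⟩
      refine ⟨e', ?_, h⟩
      by_cases hee : e' = e
      · subst hee
        rw [off_self, abs_zero] at he'
        exact absurd he' (not_lt.2 hK)
      · rwa [off_ne hee] at he'
    · rintro ⟨e', he', h⟩
      by_cases hee : e' = e
      · exfalso
        subst hee
        rcases h with ⟨ha, hb⟩ | ⟨ha, hb⟩
        · rcases hv with hv | hv
          · rw [hv] at ha; exact h3 ha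
          · apply h2
            rw [Wk_succ]
            exact Or.inr ⟨e', he', Or.inl ⟨ha, hv⟩⟩
        · rcases hv with hv | hv
          · apply h2
            rw [Wk_succ]
            exact Or.inr ⟨e', he', Or.inr ⟨ha, hv⟩⟩
          · rw [hv] at ha; exact h3 ha
      · exact ⟨e', by rwa [off_ne hee], h⟩

lemma Lk_step (hK : 0 ≤ K) {J : E B → ℝ} {v : X A} {k : ℕ} (hv : v ∈ Lk G K S (k + 1) J) :
    ∃ e : E B, K < |J e| ∧ ((G.src e ∈ Lk G K S k (off e J) ∧ G.tgt e = v) ∨
      (G.tgt e ∈ Lk G K S k (off e J) ∧ G.src e = v)) := by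
  rw [Lk_succ, Wk_succ] at hv
  obtain ⟨hv1, hv2⟩ := hv
  rcases hv1 with hv1 | ⟨e, he, h⟩
  · exact absurd hv1 hv2
  refine ⟨e, he, ?_⟩
  have key : ∀ u : X A, u ∈ Wk G K S k J → (∀ j, u ∈ Wk G K S j J → v ∈ Wk G K S (j + 1) J) →
      (G.src e = v ∨ G.tgt e = v) → u ∈ Lk G K S k (off e J) := by
    intro u hu hj hev
    have h1 := Wk_off hK hev hv2
    cases k with
    | zero => exact hu
    | succ k =>
      rw [Lk_succ, h1 (k + 1) le_rfl, h1 k (by omega)]
      exact ⟨hu, fun h => hv2 (hj k h)⟩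
  rcases h with ⟨ha, hb⟩ | ⟨ha, hb⟩
  · refine Or.inl ⟨key _ ha (fun j hj => ?_) (Or.inr hb), hb⟩
    rw [Wk_succ]
    exact Or.inr ⟨e, he, Or.inl ⟨hj, hb⟩⟩
  · refine Or.inr ⟨key _ ha (fun j hj => ?_) (Or.inl hb), hb⟩
    rw [Wk_succ]
    exact Or.inr ⟨e, he, Or.inr ⟨hj, hb⟩⟩

lemma Wk_measurable [Countable A] (v : X A) (k : ℕ) :
    MeasurableSet {J : E B → ℝ | v ∈ Wk G K S k J} := by
  induction k generalizing v with
  | zero =>
    by_cases h : v ∈ S
    · have : {J : E B → ℝ | v ∈ Wk G K S 0 J} = Set.univ := by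
        ext J; simp [Wk_zero, h]
      rw [this]; exact MeasurableSet.univ
    · have : {J : E B → ℝ | v ∈ Wk G K S 0 J} = ∅ := by
        ext J; simp [Wk_zero, h]
      rw [this]; exact MeasurableSet.empty
  | succ k ih =>
    have hbig : ∀ e : E B, MeasurableSet {J : E B → ℝ | K < |J e|} := fun e =>
      measurableSet_lt measurable_const ((measurable_pi_apply e).abs)
    have h1 : {J : E B → ℝ | v ∈ Wk G K S (k + 1) J} = {J | v ∈ Wk G K S k J} ∪
        ⋃ e : E B, ({J | K < |J e|} ∩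
          (({J | G.src e ∈ Wk G K S k J} ∩ {_J | G.tgt e = v}) ∪
            ({J | G.tgt e ∈ Wk G K S k J} ∩ {_J | G.src e = v}))) := by
      ext J
      simp only [Wk_succ, Set.mem_ofPred_eq, Set.mem_union, Set.mem_iUnion, Set.mem_inter_iff]
    rw [h1]
    exact (ih v).union (MeasurableSet.iUnion fun e => (hbig e).inter
      (((ih _).inter (MeasurableSet.const _)).union ((ih _).inter (MeasurableSet.const _))))

lemma Lk_measurable [Countable A] (v : X A) (k : ℕ) :
    MeasurableSet {J : E B → ℝ | v ∈ Lk G K S k J} := by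
  cases k with
  | zero => exact Wk_measurable (G := G) (K := K) v 0
  | succ k => exact (Wk_measurable v (k + 1)).diff (Wk_measurable v k)

section law

variable (μ : Measure ℝ) [IsProbabilityMeasure μ] [Countable A]

/-- the expected size of the layers does not grow -/
lemma one_step (hK : 0 ≤ K) {p : ℝ} (hp : μ.real {x | K < |x|} ≤ p) (hp1 : p ≤ 1 / 2) (e : E B)
    (u : X A) (k : ℕ) :
    (infinitePi fun _ : E B => μ) {J | K < |J e| ∧ u ∈ Lk G K S k (off e J)} ≤
      ENNReal.ofReal (2 * p) * (infinitePi fun _ : E B => μ) {J | u ∈ Lk G K S k J} := by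
  set P := infinitePi fun _ : E B => μ with hP
  have hoff : Measurable (off e : (E B → ℝ) → (E B → ℝ)) :=
    (measurable_patch {e}).comp (f := fun J : E B → ℝ => (J, fun _ => (0 : ℝ))) (by fun_prop)
  set T : Set (E B → ℝ) := {J | u ∈ Lk G K S k (off e J)} with hT
  have hTm : MeasurableSet T := (Lk_measurable u k).preimage hoff
  set Y : Set (E B → ℝ) := {J | K < |J e|} with hY
  have hYm : MeasurableSet Y := measurableSet_lt measurable_const ((measurable_pi_apply e).abs)
  set f : (E B → ℝ) → ℝ := T.indicator 1 with hf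
  have hfd : Dep ({e} : Set (E B))ᶜ f := by
    intro J J' hJ
    have h1 : off e J = off e J' := by
      funext e'
      by_cases h : e' = e
      · subst h; rw [off_self, off_self]
      · rw [off_ne h, off_ne h]; exact hJ e' (by simpa using h)
    have h2 : (J ∈ T) = (J' ∈ T) := by
      simp only [hT, Set.mem_ofPred_eq, h1]
    rw [hf]
    by_cases h3 : J ∈ T
    · rw [Set.indicator_of_mem h3, Set.indicator_of_mem (h2 ▸ h3)]; rfl
    · rw [Set.indicator_of_notMem h3, Set.indicator_of_notMem (fun h => h3 (h2 ▸ h))]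
  have hYd : Dep ({e} : Set (E B)) (Y.indicator 1 : (E B → ℝ) → ℝ) := by
    intro J J' hJ
    have h2 : (J ∈ Y) = (J' ∈ Y) := by
      simp only [hY, Set.mem_ofPred_eq, hJ e rfl]
    by_cases h3 : J ∈ Y
    · rw [Set.indicator_of_mem h3, Set.indicator_of_mem (h2 ▸ h3)]; rfl
    · rw [Set.indicator_of_notMem h3, Set.indicator_of_notMem (fun h => h3 (h2 ▸ h))]
  have hYd' : Dep ({e} : Set (E B)) (Yᶜ.indicator 1 : (E B → ℝ) → ℝ) := by
    intro J J' hJ
    have h2 : (J ∈ Yᶜ) = (J' ∈ Yᶜ) := by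
      simp only [hY, Set.mem_compl_iff, Set.mem_ofPred_eq, hJ e rfl]
    by_cases h3 : J ∈ Yᶜ
    · rw [Set.indicator_of_mem h3, Set.indicator_of_mem (h2 ▸ h3)]; rfl
    · rw [Set.indicator_of_notMem h3, Set.indicator_of_notMem (fun h => h3 (h2 ▸ h))]
  have mulind : ∀ s t : Set (E B → ℝ), (fun J => s.indicator (1 : (E B → ℝ) → ℝ) J *
      t.indicator 1 J) = (s ∩ t).indicator 1 := by
    intro s t
    funext J
    by_cases h1 : J ∈ s <;> by_cases h2 : J ∈ t <;> simp [h1, h2]
  have i1 := indep_int μ hfd hYd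
  have i2 := indep_int μ hfd hYd'
  rw [hf, mulind, integral_indicator_one (hTm.inter hYm), integral_indicator_one hTm,
    integral_indicator_one hYm] at i1
  rw [hf, mulind, integral_indicator_one (hTm.inter hYm.compl), integral_indicator_one hTm,
    integral_indicator_one hYm.compl] at i2
  have hYp : P.real Y = μ.real {x | K < |x|} := by
    have h7 := (measurePreserving_eval_infinitePi (fun _ : E B => μ) e)
    have h8 : MeasurableSet {x : ℝ | K < |x|} :=
      measurableSet_lt measurable_const (by fun_prop)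
    have h9 := h7.measure_preimage h8.nullMeasurableSet
    unfold Measure.real
    rw [← h9]
    rfl
  have hYc : P.real Yᶜ = 1 - P.real Y := probReal_compl_eq_one_sub hYm
  have hsub : T ∩ Yᶜ ⊆ {J | u ∈ Lk G K S k J} := by
    rintro J ⟨h1, h2⟩
    have h3 : Lk G K S k (off e J) = Lk G K S k J := by
      refine Lk_congr G K S (fun e' => ?_) k
      by_cases h : e' = e
      · subst h
        rw [off_self, abs_zero]
        constructor
        · intro h4; exact absurd h4 (not_lt.2 hK)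
        · intro h4; exact absurd h4 h2
      · rw [off_ne h]
    show u ∈ Lk G K S k J
    rw [← h3]; exact h1
  have hle : P.real (T ∩ Yᶜ) ≤ P.real {J | u ∈ Lk G K S k J} := measureReal_mono hsub
  have hT0 : 0 ≤ P.real T := measureReal_nonneg
  have hfin : P.real (T ∩ Y) ≤ 2 * p * P.real {J | u ∈ Lk G K S k J} := by
    rw [i1, hYp]
    rw [i2, hYc, hYp] at hle
    have h0 : 0 ≤ μ.real {x | K < |x|} := measureReal_nonneg
    set q := μ.real {x | K < |x|}
    set a := P.real {J | u ∈ Lk G K S k J}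
    have h4 : P.real T ≤ 2 * a := by nlinarith
    have h5 : P.real T * q ≤ P.real T * p := mul_le_mul_of_nonneg_left hp hT0
    have hp0 : 0 ≤ p := h0.trans hp
    nlinarith
  have hset : {J : E B → ℝ | K < |J e| ∧ u ∈ Lk G K S k (off e J)} = T ∩ Y := by
    ext J
    simp only [hT, hY, Set.mem_ofPred_eq, Set.mem_inter_iff]
    exact and_comm
  rw [hset]
  have h0 : 0 ≤ μ.real {x | K < |x|} := measureReal_nonneg
  have h6 := ENNReal.ofReal_le_ofReal hfin
  rw [ENNReal.ofReal_mul (by linarith)] at h6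
  unfold Measure.real at h6
  rwa [ENNReal.ofReal_toReal (measure_ne_top _ _), ENNReal.ofReal_toReal (measure_ne_top _ _)]
    at h6

/-- the expected number of sites in the layer -/
noncomputable def mL (G : PG A B) (K : ℝ) (S : Set (X A)) (k : ℕ) : ℝ≥0∞ :=
  ∑' v : X A, (infinitePi fun _ : E B => μ) {J | v ∈ Lk G K S k J}

lemma tsum_src_le (G : PG A B) (φ : X A → ℝ≥0∞) :
    ∑' e : E B, φ (G.src e) ≤ Fintype.card B * ∑' u, φ u := by
  have h1 : ∑' e : E B, φ (G.src e) = ∑' x : Fin 2 → ℤ, ∑' b : B, φ (G.src (x, b)) :=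
    ENNReal.tsum_prod (f := fun x b => φ (G.src (x, b)))
  rw [h1, ENNReal.tsum_comm, tsum_fintype]
  have h2 : ∀ b : B, ∑' x : Fin 2 → ℤ, φ (G.src (x, b)) ≤ ∑' u, φ u := fun b =>
    ENNReal.tsum_comp_le_tsum_of_injective (f := fun x : Fin 2 → ℤ => G.src (x, b))
      (fun x y h => (Prod.ext_iff.1 h).1) φ
  refine (Finset.sum_le_sum fun b _ => h2 b).trans ?_
  rw [Finset.sum_const, nsmul_eq_mul, Finset.card_univ]

lemma tsum_tgt_le (G : PG A B) (φ : X A → ℝ≥0∞) :
    ∑' e : E B, φ (G.tgt e) ≤ Fintype.card B * ∑' u, φ u := by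
  have h1 : ∑' e : E B, φ (G.tgt e) = ∑' x : Fin 2 → ℤ, ∑' b : B, φ (G.tgt (x, b)) :=
    ENNReal.tsum_prod (f := fun x b => φ (G.tgt (x, b)))
  rw [h1, ENNReal.tsum_comm, tsum_fintype]
  have h2 : ∀ b : B, ∑' x : Fin 2 → ℤ, φ (G.tgt (x, b)) ≤ ∑' u, φ u := fun b =>
    ENNReal.tsum_comp_le_tsum_of_injective (f := fun x : Fin 2 → ℤ => G.tgt (x, b))
      (fun x y h => add_right_cancel (Prod.ext_iff.1 h).1) φ
  refine (Finset.sum_le_sum fun b _ => h2 b).trans ?_
  rw [Finset.sum_const, nsmul_eq_mul, Finset.card_univ]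

lemma mL_step (hK : 0 ≤ K) {p : ℝ} (hp : μ.real {x | K < |x|} ≤ p) (hp1 : p ≤ 1 / 2) (k : ℕ) :
    mL μ G K S (k + 1) ≤ ENNReal.ofReal (2 * p) * (2 * Fintype.card B) * mL μ G K S k := by
  classical
  set P := infinitePi fun _ : E B => μ with hP
  set a : E B → ℝ≥0∞ := fun e => P {J | K < |J e| ∧ G.src e ∈ Lk G K S k (off e J)} with ha
  set b : E B → ℝ≥0∞ := fun e => P {J | K < |J e| ∧ G.tgt e ∈ Lk G K S k (off e J)} with hb
  have h1 : ∀ v : X A, P {J | v ∈ Lk G K S (k + 1) J} ≤
      ∑' e : E B, ((if G.tgt e = v then a e else 0) + (if G.src e = v then b e else 0)) := by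
    intro v
    have h2 : {J : E B → ℝ | v ∈ Lk G K S (k + 1) J} ⊆ ⋃ e : E B,
        ({J | G.tgt e = v ∧ (K < |J e| ∧ G.src e ∈ Lk G K S k (off e J))} ∪
          {J | G.src e = v ∧ (K < |J e| ∧ G.tgt e ∈ Lk G K S k (off e J))}) := by
      intro J hJ
      obtain ⟨e, he, h⟩ := Lk_step hK hJ
      refine Set.mem_iUnion.2 ⟨e, ?_⟩
      rcases h with ⟨h, h'⟩ | ⟨h, h'⟩
      · exact Or.inl ⟨h', he, h⟩
      · exact Or.inr ⟨h', he, h⟩
    refine (measure_mono h2).trans ((measure_iUnion_le _).trans ?_)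
    refine ENNReal.tsum_le_tsum fun e => (measure_union_le _ _).trans ?_
    refine add_le_add ?_ ?_
    · by_cases h : G.tgt e = v
      · rw [if_pos h]
        exact measure_mono fun J hJ => hJ.2
      · rw [if_neg h]
        have : {J : E B → ℝ | G.tgt e = v ∧ (K < |J e| ∧ G.src e ∈ Lk G K S k (off e J))} = ∅ := by
          ext J; simp [h]
        rw [this, measure_empty]
    · by_cases h : G.src e = v
      · rw [if_pos h]
        exact measure_mono fun J hJ => hJ.2
      · rw [if_neg h]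
        have : {J : E B → ℝ | G.src e = v ∧ (K < |J e| ∧ G.tgt e ∈ Lk G K S k (off e J))} = ∅ := by
          ext J; simp [h]
        rw [this, measure_empty]
  have h3 : mL μ G K S (k + 1) ≤ ∑' e : E B, (a e + b e) := by
    unfold mL
    refine (ENNReal.tsum_le_tsum h1).trans ?_
    rw [ENNReal.tsum_comm]
    refine ENNReal.tsum_le_tsum fun e => ?_
    rw [ENNReal.tsum_add]
    refine add_le_add (le_of_eq ?_) (le_of_eq ?_)
    · rw [tsum_eq_single (G.tgt e) (fun v hv => if_neg (Ne.symm hv)), if_pos rfl]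
    · rw [tsum_eq_single (G.src e) (fun v hv => if_neg (Ne.symm hv)), if_pos rfl]
  refine h3.trans ?_
  set c := ENNReal.ofReal (2 * p) with hc
  have h4 : ∑' e : E B, (a e + b e) ≤ ∑' e : E B, (c * P {J | G.src e ∈ Lk G K S k J} +
      c * P {J | G.tgt e ∈ Lk G K S k J}) :=
    ENNReal.tsum_le_tsum fun e => add_le_add (one_step μ hK hp hp1 e _ k)
      (one_step μ hK hp hp1 e _ k)
  refine h4.trans ?_
  rw [ENNReal.tsum_add, ENNReal.tsum_mul_left, ENNReal.tsum_mul_left]
  have h5 := tsum_src_le G (fun u => P {J | u ∈ Lk G K S k J})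
  have h6 := tsum_tgt_le G (fun u => P {J | u ∈ Lk G K S k J})
  have h7 : mL μ G K S k = ∑' u, P {J | u ∈ Lk G K S k J} := rfl
  rw [h7]
  calc c * ∑' e : E B, P {J | G.src e ∈ Lk G K S k J} +
        c * ∑' e : E B, P {J | G.tgt e ∈ Lk G K S k J}
      ≤ c * (Fintype.card B * ∑' u, P {J | u ∈ Lk G K S k J}) +
        c * (Fintype.card B * ∑' u, P {J | u ∈ Lk G K S k J}) :=
        add_le_add (mul_le_mul_right h5 c) (mul_le_mul_right h6 c)
    _ = c * (2 * Fintype.card B) * ∑' u, P {J | u ∈ Lk G K S k J} := by ring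

end law

end Pool.Agent.Helper43.EA
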