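import Pool.Agent.Helper43.EA.Fin

/-!
# The cocycle vanishes
-/

set_option autoImplicit false
set_option linter.unusedSectionVars false

open MeasureTheory Measure Filter Topology

namespace Pool.Agent.Helper43.EA

variable {B : Type} [Fintype B] {Ω : Type*} [MeasurableSpace Ω] {μ : Measure ℝ}
  [IsProbabilityMeasure μ] {Q : Measure Ω} [IsProbabilityMeasure Q]
  {τ : V → Ω → Ω} {δ : Finset (E B) → Ω → (E B → ℝ) → (E B → ℝ) → ℝ}
  {β : Finset (E B) → (E B → ℝ) → ℝ} {C₀ : ℝ}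

lemma S4 (hβ : Bnd μ β C₀) (hδ : Coc μ Q τ δ β) {M : ℕ} (hM : 1 ≤ M)
    {F : Finset (E B)} (hF : F ⊆ bM M)
    {G : Ω → (E B → ℝ) → (E B → ℝ) → (E B → ℝ) → ℝ} (hd : ∀ ω w z, Dep (bM M : Finset (E B)) (G ω w z))
    (hG : Measurable fun q : ((Ω × (E B → ℝ)) × (E B → ℝ)) × (E B → ℝ) => G q.1.1.1 q.1.1.2 q.1.2 q.2)
    {C : ℝ} (hC0 : 0 < C) (hC : ∀ ω w z J, |G ω w z J| ≤ C) :
    ∫ p, G p.1.1 p.2.2 p.1.2 p.2.1 * δ F p.1.1 p.2.1 p.1.2 ∂(MM μ Q (E B)) = 0 := by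
  have h1 := S3 hβ hδ.ext hM hF (g := fun q y J => G q.1 q.2 y J) (fun q y => hd _ _ _)
    hG hC0 (fun q y J => hC _ _ _ _)
  have hm : Measurable fun p : (Ω × (E B → ℝ)) × ((E B → ℝ) × (E B → ℝ)) =>
      G p.1.1 p.2.2 p.1.2 p.2.1 * δ F p.1.1 p.2.1 p.1.2 :=
    (hG.comp (f := fun p : (Ω × (E B → ℝ)) × ((E B → ℝ) × (E B → ℝ)) =>
      (((p.1.1, p.2.2), p.1.2), p.2.1)) (by fun_prop)).mul (hδ.measz _)
  have h2 := (pr2_law μ Q).comp (rZ_law μ (Q.prod (infinitePi fun _ : E B => μ)) (ι := E B))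
  rw [← mp_int h2 hm]
  exact h1

lemma loc_tendsto {Θ : Ω → (E B → ℝ) → (E B → ℝ) → ℝ}
    (hΘ : Measurable fun q : Ω × ((E B → ℝ) × (E B → ℝ)) => Θ q.1 q.2.1 q.2.2) {R : ℝ}
    (hR : ∀ ω J z, |Θ ω J z| ≤ R) {I : ℕ → Set (E B)} (hI : ∀ e, ∀ᶠ n in atTop, e ∈ I n) :
    Tendsto (fun m : ℕ => ∫ p, |Θ p.1.1 p.2.1 p.1.2 -
      Θ p.1.1 (patch (I m)ᶜ p.2.1 p.2.2) p.1.2| ∂(MM μ Q (E B))) atTop (𝓝 0) := by
  unfold MM
  have hThm : Measurable fun p : (Ω × (E B → ℝ)) × ((E B → ℝ) × (E B → ℝ)) =>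
      Θ p.1.1 p.2.1 p.1.2 := hΘ.comp
        (f := fun p : (Ω × (E B → ℝ)) × ((E B → ℝ) × (E B → ℝ)) => (p.1.1, (p.2.1, p.1.2)))
        (by fun_prop)
  have hm : ∀ m : ℕ, Measurable fun p : (Ω × (E B → ℝ)) × ((E B → ℝ) × (E B → ℝ)) =>
      |Θ p.1.1 p.2.1 p.1.2 - Θ p.1.1 (patch (I m)ᶜ p.2.1 p.2.2) p.1.2| := by
    intro m
    refine (hThm.sub (hΘ.comp
      (f := fun p : (Ω × (E B → ℝ)) × ((E B → ℝ) × (E B → ℝ)) =>
        (p.1.1, (patch (I m)ᶜ p.2.1 p.2.2, p.1.2))) ?_)).abs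
    exact (measurable_fst.comp measurable_fst).prodMk
      (((measurable_patch _).comp measurable_snd).prodMk
        (measurable_snd.comp measurable_fst))
  have hb : ∀ (m : ℕ) (p : (Ω × (E B → ℝ)) × ((E B → ℝ) × (E B → ℝ))),
      |(|Θ p.1.1 p.2.1 p.1.2 - Θ p.1.1 (patch (I m)ᶜ p.2.1 p.2.2) p.1.2|)| ≤ R + R :=
    fun m p => by
    rw [abs_abs]
    exact (abs_sub _ _).trans (add_le_add (hR _ _ _) (hR _ _ _))
  have h1 : ∀ m : ℕ, ∫ p : (Ω × (E B → ℝ)) × ((E B → ℝ) × (E B → ℝ)),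
      |Θ p.1.1 p.2.1 p.1.2 - Θ p.1.1 (patch (I m)ᶜ p.2.1 p.2.2) p.1.2|
        ∂((Q.prod (infinitePi fun _ : E B => μ)).prod
          ((infinitePi fun _ : E B => μ).prod (infinitePi fun _ : E B => μ))) =
      ∫ q, ∫ r, |Θ q.1 r.1 q.2 - Θ q.1 (patch (I m)ᶜ r.1 r.2) q.2|
        ∂((infinitePi fun _ : E B => μ).prod (infinitePi fun _ : E B => μ))
        ∂(Q.prod (infinitePi fun _ : E B => μ)) := fun m =>
    integral_prod _ (MM_bdd μ Q (hm m) (hb m))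
  simp only [h1]
  have h2 : Tendsto (fun m : ℕ => ∫ q, ∫ r, |Θ q.1 r.1 q.2 -
      Θ q.1 (patch (I m)ᶜ r.1 r.2) q.2|
        ∂((infinitePi fun _ : E B => μ).prod (infinitePi fun _ : E B => μ))
        ∂(Q.prod (infinitePi fun _ : E B => μ))) atTop
      (𝓝 (∫ _q : Ω × (E B → ℝ), (0 : ℝ) ∂(Q.prod (infinitePi fun _ : E B => μ)))) := by
    refine tendsto_integral_of_dominated_convergence (fun _ => R + R) ?_
      (integrable_const _) ?_ ?_
    · intro m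
      exact ((hm m).stronglyMeasurable.integral_prod_right
        (ν := (infinitePi fun _ : E B => μ).prod (infinitePi fun _ : E B => μ))).aestronglyMeasurable
    · intro m
      refine Eventually.of_forall fun q => ?_
      refine (norm_integral_le_of_norm_le_const (C := R + R)
        (Eventually.of_forall fun r => ?_)).trans ?_
      · rw [Real.norm_eq_abs]; exact hb m (q, r)
      · rw [probReal_univ, mul_one]
    · refine Eventually.of_forall fun q => ?_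
      refine approx μ (f := fun J => Θ q.1 J q.2) ?_ (C := R)
        (fun J => hR _ _ _) (I := I) hI
      exact hΘ.comp (f := fun J : E B → ℝ => (q.1, (J, q.2))) (by fun_prop)
  simpa using h2

/-- the sign -/
noncomputable def sg (x : ℝ) : ℝ := if 0 ≤ x then 1 else -1

lemma sg_meas : Measurable sg := by
  unfold sg
  exact Measurable.ite measurableSet_Ici measurable_const measurable_const

lemma sg_le (x : ℝ) : |sg x| ≤ 1 := by
  unfold sg
  split_ifs <;> simp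

lemma sg_mul (x : ℝ) : sg x * x = |x| := by
  unfold sg
  split_ifs with h
  · rw [abs_of_nonneg h, one_mul]
  · rw [abs_of_neg (not_le.1 h)]; ring

/-- **The cocycle vanishes.** -/
theorem zero (hβ : Bnd μ β C₀) (hδ : Coc μ Q τ δ β) (F : Finset (E B)) :
    ∀ᵐ p ∂(MM μ Q (E B)), δ F p.1.1 p.2.1 p.1.2 = 0 := by
  set Θ : Ω → (E B → ℝ) → (E B → ℝ) → ℝ := fun ω J z => sg (δ F ω J z) with hΘ
  have hΘm : Measurable fun q : Ω × ((E B → ℝ) × (E B → ℝ)) => Θ q.1 q.2.1 q.2.2 :=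
    sg_meas.comp (hδ.meas F)
  have hΘpm : Measurable fun p : (Ω × (E B → ℝ)) × ((E B → ℝ) × (E B → ℝ)) =>
      Θ p.1.1 p.2.1 p.1.2 := hΘm.comp
        (f := fun p : (Ω × (E B → ℝ)) × ((E B → ℝ) × (E B → ℝ)) => (p.1.1, (p.2.1, p.1.2)))
        (by fun_prop)
  have hlim := loc_tendsto (μ := μ) (Q := Q) hΘm (R := 1) (fun ω J z => sg_le _)
    (I := fun M => ((bM M : Finset (E B)) : Set (E B))) bM_exhaust
  have hδi := hδ.intz hβ F
  have hρm : ∀ M : ℕ, Measurable fun p : (Ω × (E B → ℝ)) × ((E B → ℝ) × (E B → ℝ)) =>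
      Θ p.1.1 (patch ((bM M : Finset (E B)) : Set (E B))ᶜ p.2.1 p.2.2) p.1.2 := fun M => hΘm.comp
        (f := fun p : (Ω × (E B → ℝ)) × ((E B → ℝ) × (E B → ℝ)) =>
          (p.1.1, (patch ((bM M : Finset (E B)) : Set (E B))ᶜ p.2.1 p.2.2, p.1.2)))
        ((measurable_fst.comp measurable_fst).prodMk
      (((measurable_patch _).comp measurable_snd).prodMk
        (measurable_snd.comp measurable_fst)))
  -- for large M
  have h1 : ∀ R : ℕ, ∀ᶠ M in atTop, ∫ p, |δ F p.1.1 p.2.1 p.1.2| ∂(MM μ Q (E B)) ≤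
      R * ∫ p, |Θ p.1.1 p.2.1 p.1.2 -
        Θ p.1.1 (patch ((bM M : Finset (E B)) : Set (E B))ᶜ p.2.1 p.2.2) p.1.2| ∂(MM μ Q (E B)) +
      2 * ∫ p, max (|δ F p.1.1 p.2.1 p.1.2| - R) 0 ∂(MM μ Q (E B)) := by
    intro R
    filter_upwards [bM_finset F, eventually_ge_atTop 1] with M hF hM
    have e1 := S4 hβ hδ hM hF
      (G := fun ω w z J => Θ ω (patch ((bM M : Finset (E B)) : Set (E B))ᶜ J w) z)
      (fun ω w z J J' hJ => by
        have : patch ((bM M : Finset (E B)) : Set (E B))ᶜ J w =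
            patch ((bM M : Finset (E B)) : Set (E B))ᶜ J' w := by
          funext e
          by_cases he : e ∈ ((bM M : Finset (E B)) : Set (E B))ᶜ
          · rw [patch_mem he, patch_mem he]
          · rw [patch_not he, patch_not he]
            exact hJ e (by simpa using he)
        simp only [this])
      (by
        refine hΘm.comp (f := fun q : ((Ω × (E B → ℝ)) × (E B → ℝ)) × (E B → ℝ) =>
          (q.1.1.1, (patch ((bM M : Finset (E B)) : Set (E B))ᶜ q.2 q.1.1.2, q.1.2))) ?_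
        have a1 : Measurable fun q : ((Ω × (E B → ℝ)) × (E B → ℝ)) × (E B → ℝ) =>
            patch ((bM M : Finset (E B)) : Set (E B))ᶜ q.2 q.1.1.2 :=
          (measurable_patch _).comp
            (f := fun q : ((Ω × (E B → ℝ)) × (E B → ℝ)) × (E B → ℝ) => (q.2, q.1.1.2)) (by fun_prop)
        exact (measurable_fst.comp (measurable_fst.comp measurable_fst)).prodMk
          (a1.prodMk (measurable_snd.comp measurable_fst)))
      (C := 1) one_pos (fun ω w z J => sg_le _)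
    have hi1 : Integrable (fun p : (Ω × (E B → ℝ)) × ((E B → ℝ) × (E B → ℝ)) =>
        Θ p.1.1 p.2.1 p.1.2 * δ F p.1.1 p.2.1 p.1.2) (MM μ Q (E B)) :=
      hδi.bdd_mul hΘpm.aestronglyMeasurable (c := 1)
        (Eventually.of_forall fun p => by rw [Real.norm_eq_abs]; exact sg_le _)
    have hi2 : Integrable (fun p : (Ω × (E B → ℝ)) × ((E B → ℝ) × (E B → ℝ)) =>
        Θ p.1.1 (patch ((bM M : Finset (E B)) : Set (E B))ᶜ p.2.1 p.2.2) p.1.2 *
          δ F p.1.1 p.2.1 p.1.2) (MM μ Q (E B)) :=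
      hδi.bdd_mul (hρm M).aestronglyMeasurable (c := 1)
        (Eventually.of_forall fun p => by rw [Real.norm_eq_abs]; exact sg_le _)
    have e2 : ∫ p, |δ F p.1.1 p.2.1 p.1.2| ∂(MM μ Q (E B)) =
        ∫ p, (Θ p.1.1 p.2.1 p.1.2 * δ F p.1.1 p.2.1 p.1.2 -
          Θ p.1.1 (patch ((bM M : Finset (E B)) : Set (E B))ᶜ p.2.1 p.2.2) p.1.2 *
            δ F p.1.1 p.2.1 p.1.2) ∂(MM μ Q (E B)) := by
      rw [integral_sub hi1 hi2, e1, sub_zero]
      refine integral_congr_ae (Eventually.of_forall fun p => ?_)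
      exact (sg_mul _).symm
    have hi3 : Integrable (fun p : (Ω × (E B → ℝ)) × ((E B → ℝ) × (E B → ℝ)) =>
        |Θ p.1.1 p.2.1 p.1.2 -
          Θ p.1.1 (patch ((bM M : Finset (E B)) : Set (E B))ᶜ p.2.1 p.2.2) p.1.2|) (MM μ Q (E B)) :=
      MM_bdd μ Q (hΘpm.sub (hρm M)).abs (C := 1 + 1) fun p => by
        rw [abs_abs]; exact (abs_sub _ _).trans (add_le_add (sg_le _) (sg_le _))
    have hi4 : Integrable (fun p : (Ω × (E B → ℝ)) × ((E B → ℝ) × (E B → ℝ)) =>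
        max (|δ F p.1.1 p.2.1 p.1.2| - R) 0) (MM μ Q (E B)) :=
      (hδi.abs.sub (integrable_const (R : ℝ))).pos_part
    rw [e2, ← integral_const_mul, ← integral_const_mul,
      ← integral_add (hi3.const_mul _) (hi4.const_mul _)]
    refine integral_mono (hi1.sub hi2) ((hi3.const_mul _).add (hi4.const_mul _)) fun p => ?_
    simp only
    rw [← sub_mul]
    set d := δ F p.1.1 p.2.1 p.1.2
    set s := Θ p.1.1 p.2.1 p.1.2 - Θ p.1.1 (patch ((bM M : Finset (E B)) : Set (E B))ᶜ p.2.1 p.2.2) p.1.2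
    have ha : |Θ p.1.1 p.2.1 p.1.2| ≤ 1 := sg_le _
    have hb : |Θ p.1.1 (patch ((bM M : Finset (E B)) : Set (E B))ᶜ p.2.1 p.2.2) p.1.2| ≤ 1 := sg_le _
    have hs2 : |s| ≤ 2 := (abs_sub _ _).trans (by linarith)
    refine (le_abs_self _).trans ?_
    rw [abs_mul]
    have h3 : |d| ≤ R + max (|d| - R) 0 := by
      have := le_max_left (|d| - (R : ℝ)) 0
      linarith
    have h4 : 0 ≤ max (|d| - (R : ℝ)) 0 := le_max_right _ _
    have h5 : |s| * |d| ≤ |s| * (R + max (|d| - R) 0) :=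
      mul_le_mul_of_nonneg_left h3 (abs_nonneg _)
    nlinarith [abs_nonneg s]
  -- limit M → ∞
  have h2 : ∀ R : ℕ, ∫ p, |δ F p.1.1 p.2.1 p.1.2| ∂(MM μ Q (E B)) ≤
      2 * ∫ p, max (|δ F p.1.1 p.2.1 p.1.2| - R) 0 ∂(MM μ Q (E B)) := by
    intro R
    have h3 : Tendsto (fun M : ℕ => (R : ℝ) * ∫ p, |Θ p.1.1 p.2.1 p.1.2 -
        Θ p.1.1 (patch ((bM M : Finset (E B)) : Set (E B))ᶜ p.2.1 p.2.2) p.1.2| ∂(MM μ Q (E B)) +
      2 * ∫ p, max (|δ F p.1.1 p.2.1 p.1.2| - R) 0 ∂(MM μ Q (E B))) atTop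
      (𝓝 ((R : ℝ) * 0 + 2 * ∫ p, max (|δ F p.1.1 p.2.1 p.1.2| - R) 0 ∂(MM μ Q (E B)))) :=
      (hlim.const_mul _).add tendsto_const_nhds
    rw [mul_zero, zero_add] at h3
    exact ge_of_tendsto h3 (h1 R)
  -- limit R → ∞
  have h3 : Tendsto (fun R : ℕ => ∫ p, max (|δ F p.1.1 p.2.1 p.1.2| - R) 0 ∂(MM μ Q (E B))) atTop
      (𝓝 (∫ _p : (Ω × (E B → ℝ)) × ((E B → ℝ) × (E B → ℝ)), (0 : ℝ) ∂(MM μ Q (E B)))) := by
    refine tendsto_integral_of_dominated_convergence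
      (fun p => |δ F p.1.1 p.2.1 p.1.2|) ?_ hδi.abs ?_ ?_
    · intro R
      exact (((hδ.measz F).abs.sub measurable_const).max measurable_const).aestronglyMeasurable
    · intro R
      refine Eventually.of_forall fun p => ?_
      rw [Real.norm_eq_abs, abs_of_nonneg (le_max_right _ _)]
      exact max_le (by have : (0 : ℝ) ≤ R := Nat.cast_nonneg R; linarith) (abs_nonneg _)
    · refine Eventually.of_forall fun p => ?_
      refine tendsto_const_nhds.congr' ?_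
      obtain ⟨R0, hR0⟩ := exists_nat_ge (|δ F p.1.1 p.2.1 p.1.2|)
      filter_upwards [eventually_ge_atTop R0] with R hR
      have : (R0 : ℝ) ≤ R := by exact_mod_cast hR
      rw [max_eq_right (by linarith)]
  rw [integral_zero] at h3
  have h4 : ∫ p, |δ F p.1.1 p.2.1 p.1.2| ∂(MM μ Q (E B)) ≤ 2 * 0 :=
    ge_of_tendsto (h3.const_mul 2) (Eventually.of_forall h2)
  rw [mul_zero] at h4
  have h5 : ∫ p, |δ F p.1.1 p.2.1 p.1.2| ∂(MM μ Q (E B)) = 0 :=
    le_antisymm h4 (integral_nonneg fun _ => abs_nonneg _)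
  rw [integral_eq_zero_iff_of_nonneg (fun _ => abs_nonneg _) hδi.abs] at h5
  filter_upwards [h5] with p hp
  exact abs_eq_zero.1 hp

end Pool.Agent.Helper43.EA
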