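import Pool.Agent.Helper43.EA.Cmp

/-!
# Covariant families with different sources of randomness
-/

set_option autoImplicit false
set_option linter.unusedSectionVars false

open MeasureTheory Measure Filter Topology

namespace Pool.Agent.Helper43.EA

variable {A B : Type} [Fintype A] [Fintype B] {G : PG A B} {Ω Ω' Ω'' : Type*} [MeasurableSpace Ω] [MeasurableSpace Ω'] [MeasurableSpace Ω'']
  {μ : Measure ℝ} [IsProbabilityMeasure μ]
  {Q : Measure Ω} [IsProbabilityMeasure Q] {Q'' : Measure Ω''} [IsProbabilityMeasure Q'']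

/-- a covariant family remains covariant when the source of randomness is extended -/
lemma Cov.comap {τ : V → Ω → Ω} {S : Ω → (E B → ℝ) → X A → ℝ} (hS : Cov G μ Q τ S)
    {τ'' : V → Ω'' → Ω''} {f : Ω'' → Ω} (hf : MeasurePreserving f Q'' Q)
    (hτ : ∀ a, MeasurePreserving (τ'' a) Q'' Q'') (hfτ : ∀ a w, f (τ'' a w) = τ a (f w)) :
    Cov G μ Q'' τ'' (fun w => S (f w)) := by
  have h1 : MeasurePreserving (fun q : Ω'' × (E B → ℝ) => (f q.1, q.2))
      (Q''.prod (infinitePi fun _ : E B => μ)) (Q.prod (infinitePi fun _ : E B => μ)) :=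
    hf.prod (MeasurePreserving.id _)
  have h2 : MeasurePreserving (fun q : Ω'' × ((E B → ℝ) × (E B → ℝ)) => (f q.1, q.2))
      (Q''.prod ((infinitePi fun _ : E B => μ).prod (infinitePi fun _ : E B => μ)))
      (Q.prod ((infinitePi fun _ : E B => μ).prod (infinitePi fun _ : E B => μ))) :=
    hf.prod (MeasurePreserving.id _)
  refine ⟨hτ, hS.meas.comp h1.measurable, h1.quasiMeasurePreserving.ae hS.ground, ?_, ?_⟩
  · intro a
    filter_upwards [h1.quasiMeasurePreserving.ae (hS.shift a)] with q hq e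
    rw [hfτ]
    exact hq e
  · exact fun F => h2.quasiMeasurePreserving.ae (hS.fin F)

variable {Q' : Measure Ω'} [IsProbabilityMeasure Q']

/-- covariant families with different sources of randomness agree on every bond -/
theorem two_bp (hat : ∀ x, μ {x} = 0)
    {τ : V → Ω → Ω} {τ' : V → Ω' → Ω'} {S : Ω → (E B → ℝ) → X A → ℝ}
    {S' : Ω' → (E B → ℝ) → X A → ℝ} (hS : Cov G μ Q τ S) (hS' : Cov G μ Q' τ' S') :
    ∀ᵐ q ∂((Q.prod Q').prod (infinitePi fun _ : E B => μ)),
      Spin (S q.1.1 q.2) ∧ Spin (S' q.1.2 q.2) ∧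
        ∀ e, bp G (S q.1.1 q.2) e = bp G (S' q.1.2 q.2) e := by
  have hτ : ∀ a, MeasurePreserving (fun w : Ω × Ω' => (τ a w.1, τ' a w.2)) (Q.prod Q')
      (Q.prod Q') := fun a => (hS.tau a).prod (hS'.tau a)
  have h1 := hS.comap (Q'' := Q.prod Q') (τ'' := fun a w => (τ a w.1, τ' a w.2))
    (f := Prod.fst) measurePreserving_fst hτ (fun _ _ => rfl)
  have h2 := hS'.comap (Q'' := Q.prod Q') (τ'' := fun a w => (τ a w.1, τ' a w.2))
    (f := Prod.snd) measurePreserving_snd hτ (fun _ _ => rfl)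
  filter_upwards [bp_eq hat h1 h2, h1.ground, h2.ground] with q h3 h4 h5
  exact ⟨h4.1, h5.1, h3⟩

end Pool.Agent.Helper43.EA
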